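import Pool.Agent.H67OM.Desc
import Pool.Agent.N208.AM.MainA

set_option autoImplicit false
set_option linter.unusedSectionVars false

/-!
# The complexified Lie algebra and its action on a motive
-/

noncomputable section

namespace Pool.Agent.H67OM

open Module Matrix Pool.Agent.TH119.DR Pool.Agent.Y102 Pool.Agent.R917 Pool.Agent.N208.AM
  Pool.Agent.TH119.MX Pool.Agent.W516.DR

variable {g : ℕ} {A : AbVar g} {s n : ℕ} {r : Fin s → ℕ} {B : Fin n → Ten A r} {w : Fin s → ℤ}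
  {P : Matrix (Fin n) (Fin n) ℂ}

/-- Coordinates of finitely many complex numbers over the rational numbers. -/
theorem coordsQ (Z : Finset ℂ) :
    ∃ (J : Type) (t : Finset J) (e : J → ℂ) (f : J → ℂ →ₗ[ℚ] ℚ),
      ∀ z ∈ Z, z = ∑ j ∈ t, e j * (f j z : ℂ) := by
  classical
  let b := Basis.ofVectorSpace ℚ ℂ
  refine ⟨Basis.ofVectorSpaceIndex ℚ ℂ, Z.biUnion fun z => (b.repr z).support, fun j => b j,
    fun j => b.coord j, fun z hz => ?_⟩
  have h1 := b.linearCombination_repr z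
  rw [Finsupp.linearCombination_apply, Finsupp.sum_of_support_subset (b.repr z)
    (Finset.subset_biUnion_of_mem (fun z => (b.repr z).support) hz) (fun i a => a • b i)
    (fun i _ => zero_smul _ _)] at h1
  conv_lhs => rw [← h1]
  refine Finset.sum_congr rfl fun j _ => ?_
  rw [Rat.smul_def, mul_comm]
  rfl

/-- The complex number given by a rational linear form. -/
def lamC (lam : ℂ →ₗ[ℚ] ℚ) : ℂ →ₗ[ℚ] ℂ := (Algebra.linearMap ℚ ℂ) ∘ₗ lam

theorem lamC_apply (lam : ℂ →ₗ[ℚ] ℚ) (z : ℂ) : lamC lam z = (lam z : ℂ) := rfl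

theorem lin_rat (f : ℂ →ₗ[ℚ] ℂ) (q : ℚ) : f (q : ℂ) = f 1 * q := by
  have h1 := f.map_smul q (1 : ℂ)
  rw [Rat.smul_def, mul_one, Rat.smul_def] at h1
  rw [h1, mul_comm]

theorem eq_zero_of_lam {z : ℂ} (h : ∀ lam : ℂ →ₗ[ℚ] ℚ, lam z = 0) : z = 0 := by
  obtain ⟨J, t, e, f, hf⟩ := coordsQ {z}
  have h1 := hf z (Finset.mem_singleton_self z)
  rw [h1]
  exact Finset.sum_eq_zero fun j _ => by rw [h (f j), Rat.cast_zero, mul_zero]

variable (A) in
/-- The complexified Lie algebra, in matrices which act on the homology. -/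
def gC : Submodule ℂ (Matrix (Fin (2 * g)) (Fin (2 * g)) ℂ) :=
  Submodule.span ℂ {Y | ∃ X ∈ A.NA, Y = toC X}

theorem toC_mem {X : Module.End ℚ A.H1} (hX : X ∈ A.NA) : toC X ∈ gC A :=
  Submodule.subset_span ⟨X, hX, rfl⟩

theorem map_toC (f : ℂ →ₗ[ℚ] ℂ) (X : Module.End ℚ A.H1) : (toC X).map f = f 1 • toC X := by
  ext i j
  rw [Matrix.map_apply, Matrix.smul_apply, smul_eq_mul]
  exact lin_rat f _

theorem map_cq (f : ℂ →ₗ[ℚ] ℂ) (M : Matrix (Fin n) (Fin n) ℚ) : (cq M).map f = f 1 • cq M := by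
  ext i j
  rw [Matrix.map_apply, Matrix.smul_apply, smul_eq_mul]
  exact lin_rat f _

theorem map_add' {a b : Type*} (f : ℂ →ₗ[ℚ] ℂ) (X Y : Matrix a b ℂ) :
    (X + Y).map f = X.map f + Y.map f := by
  ext i j
  simp

theorem map_smul' {a b : Type*} (f : ℂ →ₗ[ℚ] ℂ) (c : ℂ) (X : Matrix a b ℂ) :
    (c • X).map f = X.map (f ∘ₗ LinearMap.mulLeft ℚ c) := by
  ext i j
  simp

theorem map_zero' {a b : Type*} (f : ℂ →ₗ[ℚ] ℂ) : (0 : Matrix a b ℂ).map f = 0 := by
  ext i j
  simp

/-- The graph of the action on the motive. -/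
def RC (B : Fin n → Ten A r) :
    Submodule ℂ (Matrix (Fin (2 * g)) (Fin (2 * g)) ℂ × Matrix (Fin n) (Fin n) ℂ) :=
  Submodule.span ℂ {p | ∃ X ∈ A.NA, ∃ M, Rel B X M ∧ p = (toC X, cq M)}

theorem RC_mem {X : Module.End ℚ A.H1} (hX : X ∈ A.NA) {M : Matrix (Fin n) (Fin n) ℚ}
    (h : Rel B X M) : (toC X, cq M) ∈ RC B := Submodule.subset_span ⟨X, hX, M, h, rfl⟩

theorem RC_fst {p : Matrix (Fin (2 * g)) (Fin (2 * g)) ℂ × Matrix (Fin n) (Fin n) ℂ}
    (hp : p ∈ RC B) : p.1 ∈ gC A := by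
  induction hp using Submodule.span_induction with
  | mem x hx =>
    obtain ⟨X, hX, M, -, rfl⟩ := hx
    exact toC_mem hX
  | zero => exact Submodule.zero_mem _
  | add x y _ _ hx hy => exact Submodule.add_mem _ hx hy
  | smul c x _ hx => exact Submodule.smul_mem _ _ hx

theorem RC_map {p : Matrix (Fin (2 * g)) (Fin (2 * g)) ℂ × Matrix (Fin n) (Fin n) ℂ}
    (hp : p ∈ RC B) (f : ℂ →ₗ[ℚ] ℂ) : (p.1.map f, p.2.map f) ∈ RC B := by
  revert f
  induction hp using Submodule.span_induction with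
  | mem x hx =>
    intro f
    obtain ⟨X, hX, M, hM, rfl⟩ := hx
    simp only
    rw [map_toC, map_cq]
    exact Submodule.smul_mem _ (f 1) (RC_mem hX hM)
  | zero =>
    intro f
    rw [Prod.fst_zero, Prod.snd_zero, map_zero', map_zero']
    exact Submodule.zero_mem _
  | add x y _ _ hx hy =>
    intro f
    rw [Prod.fst_add, Prod.snd_add, map_add', map_add']
    exact Submodule.add_mem _ (hx f) (hy f)
  | smul c x _ hx =>
    intro f
    rw [Prod.smul_fst, Prod.smul_snd, map_smul', map_smul']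
    exact hx _

theorem gC_map {Y : Matrix (Fin (2 * g)) (Fin (2 * g)) ℂ}
    (hp : Y ∈ gC A) (f : ℂ →ₗ[ℚ] ℂ) : Y.map f ∈ gC A := by
  revert f
  induction hp using Submodule.span_induction with
  | mem x hx =>
    intro f
    obtain ⟨X, hX, rfl⟩ := hx
    rw [map_toC]
    exact Submodule.smul_mem _ (f 1) (toC_mem hX)
  | zero =>
    intro f
    rw [map_zero']
    exact Submodule.zero_mem _
  | add x y _ _ hx hy =>
    intro f
    rw [map_add']
    exact Submodule.add_mem _ (hx f) (hy f)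
  | smul c x _ hx =>
    intro f
    rw [map_smul']
    exact hx _

/-- The components of an element of the complexified Lie algebra. -/
theorem gC_lam {Y : Matrix (Fin (2 * g)) (Fin (2 * g)) ℂ}
    (hp : Y ∈ gC A) (lam : ℂ →ₗ[ℚ] ℚ) : ∃ X ∈ A.NA, toC X = Y.map (lamC lam) := by
  revert lam
  induction hp using Submodule.span_induction with
  | mem x hx =>
    intro lam
    obtain ⟨X, hX, rfl⟩ := hx
    refine ⟨lam 1 • X, A.NA.smul_mem _ hX, ?_⟩
    rw [map_toC, toC_smul, lamC_apply]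
  | zero =>
    intro lam
    exact ⟨0, A.NA.zero_mem, by rw [map_zero', toC_zero]⟩
  | add x y _ _ hx hy =>
    intro lam
    obtain ⟨X, hX, h1⟩ := hx lam
    obtain ⟨Y, hY, h2⟩ := hy lam
    exact ⟨X + Y, A.NA.add_mem hX hY, by rw [map_add', toC_add, h1, h2]⟩
  | smul c x _ hx =>
    intro lam
    obtain ⟨X, hX, h1⟩ := hx (lam ∘ₗ LinearMap.mulLeft ℚ c)
    refine ⟨X, hX, ?_⟩
    rw [map_smul', h1]
    rfl

theorem toC_inj {X Y : Module.End ℚ A.H1} (h : toC X = toC Y) : X = Y := by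
  refine (Pi.basisFun ℚ (Fin (2 * g))).ext fun j => ?_
  funext i
  have h1 := congrFun (congrFun h i) j
  unfold toC at h1
  rw [Matrix.of_apply, Matrix.of_apply] at h1
  rw [Pi.basisFun_apply]
  exact_mod_cast h1

theorem RC_lam {p : Matrix (Fin (2 * g)) (Fin (2 * g)) ℂ × Matrix (Fin n) (Fin n) ℂ}
    (hp : p ∈ RC B) (lam : ℂ →ₗ[ℚ] ℚ) : ∃ X ∈ A.NA, ∃ M, Rel B X M ∧
      toC X = p.1.map (lamC lam) ∧ cq M = p.2.map (lamC lam) := by
  revert lam
  induction hp using Submodule.span_induction with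
  | mem x hx =>
    intro lam
    obtain ⟨X, hX, M, hM, rfl⟩ := hx
    refine ⟨lam 1 • X, A.NA.smul_mem _ hX, lam 1 • M, hM.smul _, ?_, ?_⟩
    · rw [map_toC, toC_smul, lamC_apply]
    · rw [map_cq, cq_smul, lamC_apply]
  | zero =>
    intro lam
    exact ⟨0, A.NA.zero_mem, 0, Rel.zero, by rw [Prod.fst_zero, map_zero', toC_zero],
      by rw [Prod.snd_zero, map_zero', cq_zero]⟩
  | add x y _ _ hx hy =>
    intro lam
    obtain ⟨X, hX, M, hM, h1, h2⟩ := hx lam
    obtain ⟨Y, hY, N, hN, h3, h4⟩ := hy lam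
    exact ⟨X + Y, A.NA.add_mem hX hY, M + N, hM.add hN,
      by rw [Prod.fst_add, map_add', toC_add, h1, h3],
      by rw [Prod.snd_add, map_add', cq_add, h2, h4]⟩
  | smul c x _ hx =>
    intro lam
    obtain ⟨X, hX, M, hM, h1, h2⟩ := hx (lam ∘ₗ LinearMap.mulLeft ℚ c)
    refine ⟨X, hX, M, hM, ?_, ?_⟩
    · rw [Prod.smul_fst, map_smul', h1]
      rfl
    · rw [Prod.smul_snd, map_smul', h2]
      rfl

/-- The action is well defined. -/
theorem RC_uniq (hB : LinearIndependent ℚ B) {Y : Matrix (Fin (2 * g)) (Fin (2 * g)) ℂ}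
    {M M' : Matrix (Fin n) (Fin n) ℂ} (h : (Y, M) ∈ RC B) (h' : (Y, M') ∈ RC B) : M = M' := by
  have h1 : ((0 : Matrix (Fin (2 * g)) (Fin (2 * g)) ℂ), M - M') ∈ RC B := by
    have h2 := Submodule.sub_mem _ h h'
    rwa [Prod.mk_sub_mk, sub_self] at h2
  rw [← sub_eq_zero]
  ext i j
  refine eq_zero_of_lam fun lam => ?_
  obtain ⟨X, hX, N, hN, h3, h4⟩ := RC_lam h1 lam
  simp only at h3 h4
  rw [map_zero'] at h3
  have h5 : X = 0 := toC_inj (h3.trans toC_zero.symm)
  subst h5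
  have h6 : N = 0 := hN.uniq hB Rel.zero
  subst h6
  rw [cq_zero] at h4
  have h7 := congrFun (congrFun h4 i) j
  rw [Matrix.map_apply, lamC_apply, Matrix.zero_apply] at h7
  exact_mod_cast h7.symm

theorem RC_exists (hst : ∀ X ∈ A.NA, ∃ M, Rel B X M) {Y : Matrix (Fin (2 * g)) (Fin (2 * g)) ℂ}
    (h : Y ∈ gC A) : ∃ M, (Y, M) ∈ RC B := by
  induction h using Submodule.span_induction with
  | mem x hx =>
    obtain ⟨X, hX, rfl⟩ := hx
    obtain ⟨M, hM⟩ := hst X hX
    exact ⟨_, RC_mem hX hM⟩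
  | zero => exact ⟨0, Submodule.zero_mem _⟩
  | add x y _ _ hx hy =>
    obtain ⟨M, hM⟩ := hx
    obtain ⟨N, hN⟩ := hy
    exact ⟨_, Submodule.add_mem _ hM hN⟩
  | smul c x _ hx =>
    obtain ⟨M, hM⟩ := hx
    exact ⟨_, Submodule.smul_mem _ c hM⟩

/-- The criterion in terms of the components. -/
theorem RC_of_lam {Y : Matrix (Fin (2 * g)) (Fin (2 * g)) ℂ} {M : Matrix (Fin n) (Fin n) ℂ}
    (h : ∀ lam : ℂ →ₗ[ℚ] ℚ, ∃ X ∈ A.NA, ∃ N, Rel B X N ∧
      toC X = Y.map (lamC lam) ∧ cq N = M.map (lamC lam)) : (Y, M) ∈ RC B := by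
  classical
  obtain ⟨J, t, e, f, hf⟩ := coordsQ ((Finset.univ.image fun p : Fin (2 * g) × Fin (2 * g) =>
    Y p.1 p.2) ∪ (Finset.univ.image fun p : Fin n × Fin n => M p.1 p.2))
  choose X hX N hN h1 h2 using h
  have h3 : (Y, M) = ∑ j ∈ t, e j • (toC (X (f j)), cq (N (f j))) := by
    refine Prod.ext ?_ ?_
    · rw [Prod.fst_sum]
      ext i k
      rw [Matrix.sum_apply]
      simp only [Prod.smul_fst]
      rw [hf (Y i k) (Finset.mem_union_left _ (Finset.mem_image.2 ⟨(i, k), Finset.mem_univ _, rfl⟩))]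
      refine Finset.sum_congr rfl fun j _ => ?_
      rw [h1, Matrix.smul_apply, Matrix.map_apply, lamC_apply, smul_eq_mul]
    · rw [Prod.snd_sum]
      ext i k
      rw [Matrix.sum_apply]
      simp only [Prod.smul_snd]
      rw [hf (M i k) (Finset.mem_union_right _
        (Finset.mem_image.2 ⟨(i, k), Finset.mem_univ _, rfl⟩))]
      refine Finset.sum_congr rfl fun j _ => ?_
      rw [h2, Matrix.smul_apply, Matrix.map_apply, lamC_apply, smul_eq_mul]
  rw [h3]
  exact Submodule.sum_mem _ fun j _ => Submodule.smul_mem _ _ (RC_mem (hX _) (hN _))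

theorem gC_of_lam {Y : Matrix (Fin (2 * g)) (Fin (2 * g)) ℂ}
    (h : ∀ lam : ℂ →ₗ[ℚ] ℚ, ∃ X ∈ A.NA, toC X = Y.map (lamC lam)) : Y ∈ gC A := by
  classical
  obtain ⟨J, t, e, f, hf⟩ := coordsQ (Finset.univ.image fun p : Fin (2 * g) × Fin (2 * g) =>
    Y p.1 p.2)
  choose X hX h1 using h
  have h3 : Y = ∑ j ∈ t, e j • toC (X (f j)) := by
    ext i k
    rw [Matrix.sum_apply]
    rw [hf (Y i k) (Finset.mem_image.2 ⟨(i, k), Finset.mem_univ _, rfl⟩)]
    refine Finset.sum_congr rfl fun j _ => ?_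
    rw [h1, Matrix.smul_apply, Matrix.map_apply, lamC_apply, smul_eq_mul]
  rw [h3]
  exact Submodule.sum_mem _ fun j _ => Submodule.smul_mem _ _ (toC_mem (hX _))

/-- The bracket. -/
theorem gC_br {X Y : Matrix (Fin (2 * g)) (Fin (2 * g)) ℂ} (hX : X ∈ gC A) (hY : Y ∈ gC A) :
    X * Y - Y * X ∈ gC A := by
  induction hX using Submodule.span_induction with
  | mem x hx =>
    obtain ⟨X, hX, rfl⟩ := hx
    induction hY using Submodule.span_induction with
    | mem y hy =>
      obtain ⟨Y, hY, rfl⟩ := hy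
      rw [← toC_mul, ← toC_mul, ← toC_sub]
      exact toC_mem (A.NA_bracket hX hY)
    | zero =>
      rw [mul_zero, zero_mul, sub_zero]
      exact Submodule.zero_mem _
    | add x y _ _ hx hy =>
      rw [mul_add, add_mul, add_sub_add_comm]
      exact Submodule.add_mem _ hx hy
    | smul c x _ hx =>
      rw [mul_smul_comm, smul_mul_assoc, ← smul_sub]
      exact Submodule.smul_mem _ _ hx
  | zero =>
    rw [mul_zero, zero_mul, sub_zero]
    exact Submodule.zero_mem _
  | add x y _ _ hx hy =>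
    rw [mul_add, add_mul, add_sub_add_comm]
    exact Submodule.add_mem _ hx hy
  | smul c x _ hx =>
    rw [mul_smul_comm, smul_mul_assoc, ← smul_sub]
    exact Submodule.smul_mem _ _ hx

theorem RC_br {p q : Matrix (Fin (2 * g)) (Fin (2 * g)) ℂ × Matrix (Fin n) (Fin n) ℂ}
    (hp : p ∈ RC B) (hq : q ∈ RC B) :
    (p.1 * q.1 - q.1 * p.1, q.2 * p.2 - p.2 * q.2) ∈ RC B := by
  induction hp using Submodule.span_induction with
  | mem x hx =>
    obtain ⟨X, hX, M, hM, rfl⟩ := hx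
    induction hq using Submodule.span_induction with
    | mem y hy =>
      obtain ⟨Y, hY, N, hN, rfl⟩ := hy
      simp only
      rw [← toC_mul, ← toC_mul, ← toC_sub, ← cq_mul, ← cq_mul, ← cq_sub]
      exact RC_mem (A.NA_bracket hX hY) (hM.br hN)
    | zero =>
      rw [Prod.fst_zero, Prod.snd_zero, mul_zero, zero_mul, sub_zero, mul_zero, zero_mul, sub_zero]
      exact Submodule.zero_mem _
    | add x y _ _ hx hy =>
      rw [Prod.fst_add, Prod.snd_add, mul_add, add_mul, add_sub_add_comm, mul_add, add_mul,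
        add_sub_add_comm]
      exact Submodule.add_mem _ hx hy
    | smul c x _ hx =>
      rw [Prod.smul_fst, Prod.smul_snd, mul_smul_comm, smul_mul_assoc, ← smul_sub, mul_smul_comm,
        smul_mul_assoc, ← smul_sub]
      exact Submodule.smul_mem _ c hx
  | zero =>
    rw [Prod.fst_zero, Prod.snd_zero, mul_zero, zero_mul, sub_zero, mul_zero, zero_mul, sub_zero]
    exact Submodule.zero_mem _
  | add x y _ _ hx hy =>
    rw [Prod.fst_add, Prod.snd_add, mul_add, add_mul, add_sub_add_comm, mul_add, add_mul,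
      add_sub_add_comm]
    exact Submodule.add_mem _ hx hy
  | smul c x _ hx =>
    rw [Prod.smul_fst, Prod.smul_snd, mul_smul_comm, smul_mul_assoc, ← smul_sub, mul_smul_comm,
      smul_mul_assoc, ← smul_sub]
    exact Submodule.smul_mem _ c hx

/-- The trace form is not degenerate. -/
theorem gC_nondeg {U : Matrix (Fin (2 * g)) (Fin (2 * g)) ℂ} (hU : U ∈ gC A)
    (h : ∀ X ∈ gC A, (U * X).trace = 0) : U = 0 := by
  ext i j
  refine eq_zero_of_lam fun lam => ?_
  obtain ⟨X, hX, h1⟩ := gC_lam hU lam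
  have h2 : X = 0 := by
    refine A.trace_NA X hX fun Y hY => ?_
    have h3 := h _ (toC_mem hY)
    have h4 : (LinearMap.trace ℚ A.H1 (X * Y) : ℂ) = (toC X * toC Y).trace := by
      rw [← toC_mul, toC_eq, LinearMap.trace_eq_matrix_trace ℚ (Pi.basisFun ℚ (Fin (2 * g))),
        LinearMap.toMatrix_eq_toMatrix', Matrix.trace, Matrix.trace]
      push_cast
      exact Finset.sum_congr rfl fun i _ => rfl
    have h5 : (toC X * toC Y).trace = lamC lam ((U * toC Y).trace) := by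
      rw [h1, Matrix.trace, Matrix.trace, map_sum]
      refine Finset.sum_congr rfl fun a _ => ?_
      rw [Matrix.diag_apply, Matrix.diag_apply, Matrix.mul_apply, Matrix.mul_apply, map_sum]
      refine Finset.sum_congr rfl fun b _ => ?_
      rw [Matrix.map_apply]
      have h6 : toC Y b a = ((Y (Pi.single a 1) b : ℚ) : ℂ) := rfl
      rw [h6]
      generalize Y (Pi.single a 1) b = q
      have h7 := (lamC lam).map_smul q (U a b)
      rw [Rat.smul_def, Rat.smul_def, mul_comm] at h7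
      rw [h7, mul_comm]
    rw [h5, h3, map_zero] at h4
    exact_mod_cast h4
  subst h2
  rw [toC_zero] at h1
  have h7 := congrFun (congrFun h1 i) j
  rw [Matrix.map_apply, lamC_apply, Matrix.zero_apply] at h7
  exact_mod_cast h7.symm

end Pool.Agent.H67OM
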