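import Pool.Agent.R917.GrpLie

set_option autoImplicit false
set_option linter.unusedSectionVars false

/-!
# Descent of complex subspaces with derivations, and points over the field of algebraic numbers
-/

noncomputable section

namespace Pool.Agent.H67OM

open Pool.Agent.TH119.DR Pool.Agent.Y102 Pool.Agent.R917

/-- A derivation of the complex numbers is linear over the field of algebraic numbers. -/
def derB (δ : Derivation ℚ ℂ ℂ) : Derivation QBar ℂ ℂ where
  toFun z := δ z
  map_add' x y := map_add δ x y
  map_smul' c x := by
    change δ ((c : ℂ) * x) = (c : ℂ) * δ x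
    rw [Derivation.leibniz, deriv_alg δ (mem_QA.1 c.2), smul_zero, add_zero, smul_eq_mul]
  map_one_eq_zero' := δ.map_one_eq_zero
  leibniz' x y := δ.leibniz x y

theorem derB_apply (δ : Derivation ℚ ℂ ℂ) (z : ℂ) : derB δ z = δ z := rfl

theorem exists_der {z : ℂ} (hz : ¬ IsAlgebraic ℚ z) : ∃ D : Derivation QBar ℂ ℂ, D z ≠ 0 := by
  obtain ⟨δ, hδ⟩ := exists_deriv hz
  exact ⟨derB δ, hδ⟩

/-- A subspace which is stable under all derivations is defined over the field of algebraic
numbers. -/
theorem defOver_of_der {B : Type*} [Fintype B] (W : Submodule ℂ (B → ℂ))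
    (hC : ∀ D : Derivation QBar ℂ ℂ, ∀ v ∈ W, (fun i => D (v i)) ∈ W) :
    DefOver QA W := by
  classical
  have key : ∀ (n : ℕ) (v : B → ℂ), v ∈ W → (Finset.univ.filter (fun i => v i ≠ 0)).card ≤ n →
      v ∈ Submodule.span ℂ {w | w ∈ W ∧ ∀ a, w a ∈ QA} := by
    intro n
    induction n with
    | zero =>
      intro v _ hv
      have h1 : v = 0 := by
        funext i
        by_contra h
        have h2 : i ∈ Finset.univ.filter (fun i => v i ≠ 0) := by simpa using h
        rw [Nat.le_zero, Finset.card_eq_zero] at hv
        rw [hv] at h2
        exact absurd h2 (Finset.notMem_empty i)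
      rw [h1]
      exact Submodule.zero_mem _
    | succ n ih =>
      intro v hv hcard
      by_cases hv0 : v = 0
      · rw [hv0]
        exact Submodule.zero_mem _
      · obtain ⟨i0, hi0⟩ : ∃ i, v i ≠ 0 := by
          by_contra hcon
          push Not at hcon
          exact hv0 (funext hcon)
        have hw : (v i0)⁻¹ • v ∈ W := Submodule.smul_mem _ _ hv
        set w := (v i0)⁻¹ • v with hwdef
        have hwi0 : w i0 = 1 := by
          rw [hwdef, Pi.smul_apply, smul_eq_mul, inv_mul_cancel₀ hi0]
        have hwsupp : ∀ i, w i ≠ 0 → v i ≠ 0 := by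
          intro i h1 h2
          apply h1
          rw [hwdef, Pi.smul_apply, h2, smul_zero]
        have hvw : v = (v i0) • w := by
          rw [hwdef, smul_smul, mul_inv_cancel₀ hi0, one_smul]
        by_cases hrat : ∀ i, w i ∈ QA
        · rw [hvw]
          exact Submodule.smul_mem _ _ (Submodule.subset_span ⟨hw, hrat⟩)
        · push Not at hrat
          obtain ⟨i1, hi1⟩ := hrat
          obtain ⟨D, hD⟩ := exists_der (fun h => hi1 (mem_QA.2 h))
          set d : B → ℂ := fun i => D (w i) with hd
          have hdC : d ∈ W := hC D w hw
          have hd0 : d i0 = 0 := by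
            rw [hd]
            simp [hwi0]
          have hd1 : d i1 ≠ 0 := hD
          have hdsupp : ∀ i, d i ≠ 0 → v i ≠ 0 := by
            intro i h1
            apply hwsupp
            intro h2
            apply h1
            rw [hd]
            simp [h2]
          have hdcard : (Finset.univ.filter (fun i => d i ≠ 0)).card ≤ n := by
            have h1 : (Finset.univ.filter (fun i => d i ≠ 0)) ⊂
                (Finset.univ.filter (fun i => v i ≠ 0)) := by
              refine Finset.ssubset_iff_subset_ne.2 ⟨fun i hi => ?_, fun he => ?_⟩
              · rw [Finset.mem_filter] at hi ⊢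
                exact ⟨hi.1, hdsupp i hi.2⟩
              · have h2 : i0 ∈ Finset.univ.filter (fun i => v i ≠ 0) := by simpa using hi0
                rw [← he, Finset.mem_filter] at h2
                exact h2.2 hd0
            have h2 := Finset.card_lt_card h1
            omega
          -- subtract a multiple of `d`
          have hstep : ∀ c : ℂ, w - c • d ∈ W := fun c => W.sub_mem hw (W.smul_mem _ hdC)
          have hw1 : w i1 ≠ 0 := by
            intro h0
            apply hi1
            rw [h0]
            exact QA.zero_mem
          have hcc : (Finset.univ.filter (fun i => (w - (w i1 / d i1) • d) i ≠ 0)).card ≤ n := by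
            have h1 : (Finset.univ.filter (fun i => (w - (w i1 / d i1) • d) i ≠ 0)) ⊂
                (Finset.univ.filter (fun i => v i ≠ 0)) := by
              refine Finset.ssubset_iff_subset_ne.2 ⟨fun i hi => ?_, fun he => ?_⟩
              · rw [Finset.mem_filter] at hi ⊢
                refine ⟨hi.1, fun h0 => hi.2 ?_⟩
                have e1 : w i = 0 := by
                  by_contra hne
                  exact hwsupp i hne h0
                have e2 : d i = 0 := by
                  by_contra hne
                  exact hdsupp i hne h0
                rw [Pi.sub_apply, Pi.smul_apply, e1, e2, smul_zero, sub_zero]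
              · have h2 : i1 ∈ Finset.univ.filter (fun i => v i ≠ 0) := by
                  rw [Finset.mem_filter]
                  exact ⟨Finset.mem_univ _, hwsupp i1 hw1⟩
                rw [← he, Finset.mem_filter] at h2
                apply h2.2
                rw [Pi.sub_apply, Pi.smul_apply, smul_eq_mul, div_mul_cancel₀ _ hd1, sub_self]
            have h2 := Finset.card_lt_card h1
            omega
          have e1 := ih d hdC hdcard
          have e2 := ih _ (hstep (w i1 / d i1)) hcc
          rw [hvw]
          refine Submodule.smul_mem _ _ ?_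
          have h3 := Submodule.add_mem _ e2 (Submodule.smul_mem _ (w i1 / d i1) e1)
          rwa [sub_add_cancel] at h3
  exact fun v hv => key _ v hv le_rfl

/-- Points over the field of algebraic numbers. -/
theorem exists_alg_point {σ : Type} [Finite σ] (I : Set (MvPolynomial σ QBar)) (z : σ → ℂ)
    (hz : ∀ p ∈ I, MvPolynomial.aeval z p = 0) :
    ∃ y : σ → QBar, ∀ p ∈ I, MvPolynomial.eval y p = 0 := by
  by_contra hcon
  push Not at hcon
  have h1 : MvPolynomial.zeroLocus QBar (Ideal.span I) = ∅ := by
    rw [Set.eq_empty_iff_forall_notMem]
    intro y hy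
    obtain ⟨p, hp, h2⟩ := hcon y
    exact h2 (by
      have := MvPolynomial.mem_zeroLocus_iff.1 hy p (Ideal.subset_span hp)
      simpa using this)
  have h2 := MvPolynomial.vanishingIdeal_zeroLocus_eq_radical (K := QBar) (Ideal.span I)
  rw [h1, MvPolynomial.vanishingIdeal_empty] at h2
  have h3 : (1 : MvPolynomial σ QBar) ∈ Ideal.span I := by
    have h4 : (Ideal.span I).radical = ⊤ := h2.symm
    rw [Ideal.radical_eq_top] at h4
    rw [h4]
    exact Submodule.mem_top
  have h4 : ∀ p ∈ Ideal.span I, MvPolynomial.aeval z p = 0 := by
    intro p hp
    have h5 : Ideal.span I ≤ RingHom.ker (MvPolynomial.aeval z : MvPolynomial σ QBar →ₐ[QBar] ℂ) :=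
      Ideal.span_le.2 fun p hp => hz p hp
    exact h5 hp
  have h5 := h4 1 h3
  rw [map_one] at h5
  exact one_ne_zero h5

end Pool.Agent.H67OM
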