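import Pool.Agent.H67OM.Cx

set_option autoImplicit false
set_option linter.unusedSectionVars false

/-!
# Subobjects of the adjoint motive and the Lie algebra of a torsor of periods
-/

noncomputable section

namespace Pool.Agent.H67OM

open Module Matrix Pool.Agent.TH119.DR Pool.Agent.Y102 Pool.Agent.R917 Pool.Agent.N208.AM
  Pool.Agent.TH119.MX Pool.Agent.W516.DR

variable {g : ℕ} {A : AbVar g} {s n : ℕ} {r : Fin s → ℕ} {B : Fin n → Ten A r} {w : Fin s → ℤ}
  {P P' : Matrix (Fin n) (Fin n) ℂ} {F : Subfield ℂ}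

variable (A) in
/-- The endomorphism with the matrix `Y` respects the de Rham structure over the field of algebraic
numbers. -/
def AlgDR (Y : Matrix (Fin (2 * g)) (Fin (2 * g)) ℂ) : Prop :=
  ∃ c : Fin g ⊕ Fin g → Fin g ⊕ Fin g → ℂ, (∀ k l, IsAlgebraic ℚ (c k l)) ∧
    ∀ k j, ∑ i, Y i j * A.dR k (Pi.single i 1) = ∑ l, c k l * A.dR l (Pi.single j 1)

variable (A F) in
/-- A de Rham-Betti subobject of the adjoint motive, with coefficients in `F`. -/
structure IsSub (W : Submodule ℂ (Matrix (Fin (2 * g)) (Fin (2 * g)) ℂ)) : Prop where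
  le : W ≤ gC A
  betti : W ≤ Submodule.span ℂ {Y | Y ∈ W ∧ ∀ i j, Y i j ∈ F}
  deRham : W ≤ Submodule.span ℂ {Y | Y ∈ W ∧ AlgDR A Y}

variable (A F) in
/-- All de Rham-Betti subobjects of the adjoint motive are stable under the Lie algebra. -/
def AdSub : Prop := ∀ W, IsSub A F W → ∀ X ∈ A.NA, ∀ Y ∈ W, toC X * Y - Y * toC X ∈ W

variable (A) in
/-- The logarithmic derivative of the period matrix. -/
def xD (D : Derivation QBar ℂ ℂ) : Matrix (Fin (2 * g)) (Fin (2 * g)) ℂ :=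
  ((PM A).map D * (PM A)⁻¹)ᵀ

theorem PM_unit : IsUnit (PM A).det := isUnit_iff_ne_zero.2 (det_PM A)

theorem xD_mul (D : Derivation QBar ℂ ℂ) : (xD A D)ᵀ * PM A = (PM A).map D := by
  unfold xD
  rw [Matrix.transpose_transpose, Matrix.mul_assoc, Matrix.nonsing_inv_mul _ PM_unit,
    Matrix.mul_one]

variable (A) in
/-- The same, with the scalar part subtracted. -/
def yD (D : Derivation QBar ℂ ℂ) : Matrix (Fin (2 * g)) (Fin (2 * g)) ℂ :=
  xD A D - (D tau / (2 * tau)) • (1 : Matrix (Fin (2 * g)) (Fin (2 * g)) ℂ)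

theorem yD_br (D : Derivation QBar ℂ ℂ) (Y : Matrix (Fin (2 * g)) (Fin (2 * g)) ℂ) :
    yD A D * Y - Y * yD A D = xD A D * Y - Y * xD A D := by
  unfold yD
  rw [sub_mul, mul_sub, smul_mul_assoc, mul_smul_comm, one_mul, mul_one, sub_sub_sub_cancel_right]

theorem yD_lam (D : Derivation QBar ℂ ℂ) (lam : ℂ →ₗ[ℚ] ℚ) :
    toC (X0 A.basis tau D lam) = (yD A D).map (lamC lam) := by
  have h1 := toC_cmpE A D (Matrix.nonsing_inv_mul _ PM_unit) lam
  have h2 : toC (Pool.Agent.W516.DR.cmpE lam (XX A.basis D)) = (xD A D).map (lamC lam) := by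
    rw [← Matrix.transpose_transpose (toC _), h1]
    rfl
  rw [← X0_eq D lam, toC_add, toC_smul, toC_one] at h2
  have h3 : (yD A D).map (lamC lam) = (xD A D).map (lamC lam) -
      (lam (D tau / (2 * tau)) : ℂ) • (1 : Matrix (Fin (2 * g)) (Fin (2 * g)) ℂ) := by
    ext i j
    unfold yD
    rw [Matrix.map_apply, Matrix.sub_apply, Matrix.sub_apply, Matrix.map_apply, map_sub,
      Matrix.smul_apply, Matrix.smul_apply, Matrix.one_apply]
    congr 1
    split_ifs
    · rw [smul_eq_mul, smul_eq_mul, mul_one, mul_one, lamC_apply]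
    · rw [smul_zero, smul_zero, map_zero]
  rw [h3, ← h2, add_sub_cancel_right]

theorem X0_NA (D : Derivation QBar ℂ ℂ) (lam : ℂ →ₗ[ℚ] ℚ) : X0 A.basis tau D lam ∈ A.NA :=
  A.LA_le_NA (by
    rw [AbVar.LA_eq]
    exact X0_mem A.basis AbVar.tau_ne D lam)

theorem yD_mem (D : Derivation QBar ℂ ℂ) : yD A D ∈ gC A :=
  gC_of_lam fun lam => ⟨_, X0_NA D lam, yD_lam D lam⟩

/-- The logarithmic derivative of the periods of the motive. -/
theorem yD_RC (h : Mot w B P) (h1 : P * P' = 1) {Wt : Matrix (Fin n) (Fin n) ℚ}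
    (hW : WRel w B Wt) (D : Derivation QBar ℂ ℂ) :
    (yD A D, P.map D * P' - (D tau / (2 * tau)) • cq Wt) ∈ RC B := by
  refine RC_of_lam fun lam => ?_
  obtain ⟨M, hM⟩ := h.st _ (X0_NA D lam)
  refine ⟨_, X0_NA D lam, M, hM, yD_lam D lam, ?_⟩
  ext b c
  have h2 := lam_log h h1 D lam hM hW b c
  have h3 := (lamC lam).map_smul (Wt b c) (D tau / (2 * tau))
  rw [Rat.smul_def, Rat.smul_def] at h3
  have h4 : lamC lam ((P.map D * P') b c) = (M b c : ℂ) +
      lamC lam (D tau / (2 * tau)) * (Wt b c : ℂ) := by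
    rw [lamC_apply, lamC_apply, h2]
    push_cast
    rfl
  change (M b c : ℂ) = lamC lam ((P.map D * P') b c - (D tau / (2 * tau)) * (Wt b c : ℂ))
  rw [map_sub, mul_comm (D tau / (2 * tau)), h3, h4]
  ring

theorem map_mul_der {a b c : Type*} [Fintype b] (D : Derivation QBar ℂ ℂ) (X : Matrix a b ℂ)
    (Y : Matrix b c ℂ) : (X * Y).map D = X.map D * Y + X * Y.map D := by
  ext i j
  rw [Matrix.map_apply, Matrix.mul_apply, map_sum, Matrix.add_apply, Matrix.mul_apply,
    Matrix.mul_apply, ← Finset.sum_add_distrib]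
  refine Finset.sum_congr rfl fun k _ => ?_
  rw [Derivation.leibniz, Matrix.map_apply, Matrix.map_apply, smul_eq_mul, smul_eq_mul]
  ring

/-- Descent on the de Rham side. -/
theorem dr_desc (W : Submodule ℂ (Matrix (Fin (2 * g)) (Fin (2 * g)) ℂ))
    (h1 : ∀ D : Derivation QBar ℂ ℂ, ∀ Y ∈ W, Y.map D ∈ W)
    (h2 : ∀ D : Derivation QBar ℂ ℂ, ∀ Y ∈ W, yD A D * Y - Y * yD A D ∈ W) :
    W ≤ Submodule.span ℂ {Y | Y ∈ W ∧ AlgDR A Y} := by
  classical
  -- the matrices on the de Rham side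
  let L : ((Fin (2 * g) × Fin (2 * g)) → ℂ) →ₗ[ℂ] Matrix (Fin (2 * g)) (Fin (2 * g)) ℂ :=
    { toFun := fun c => (PM A * Matrix.of (fun i j => c (i, j)) * (PM A)⁻¹)ᵀ
      map_add' := fun c d => by
        have : (Matrix.of fun i j => (c + d) (i, j) : Matrix (Fin (2 * g)) (Fin (2 * g)) ℂ) =
            Matrix.of (fun i j => c (i, j)) + Matrix.of (fun i j => d (i, j)) := rfl
        rw [this, mul_add, add_mul, Matrix.transpose_add]
      map_smul' := fun a c => by
        have : (Matrix.of fun i j => (a • c) (i, j) : Matrix (Fin (2 * g)) (Fin (2 * g)) ℂ) =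
            a • Matrix.of (fun i j => c (i, j)) := rfl
        rw [this, mul_smul_comm, smul_mul_assoc, Matrix.transpose_smul, RingHom.id_apply] }
  have hL : ∀ c : (Fin (2 * g) × Fin (2 * g)) → ℂ, (L c)ᵀ * PM A =
      PM A * Matrix.of (fun i j => c (i, j)) := by
    intro c
    change ((PM A * Matrix.of (fun i j => c (i, j)) * (PM A)⁻¹)ᵀ)ᵀ * PM A = _
    rw [Matrix.transpose_transpose, Matrix.mul_assoc, Matrix.nonsing_inv_mul _ PM_unit,
      Matrix.mul_one]
  have hLu : ∀ (c : (Fin (2 * g) × Fin (2 * g)) → ℂ) (Y : Matrix (Fin (2 * g)) (Fin (2 * g)) ℂ),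
      Yᵀ * PM A = PM A * Matrix.of (fun i j => c (i, j)) → L c = Y := by
    intro c Y h
    change (PM A * Matrix.of (fun i j => c (i, j)) * (PM A)⁻¹)ᵀ = Y
    rw [← h, Matrix.mul_assoc, Matrix.mul_nonsing_inv _ PM_unit, Matrix.mul_one,
      Matrix.transpose_transpose]
  have hdef : DefOver QA (W.comap L) := by
    refine defOver_of_der _ fun D c hc => ?_
    rw [Submodule.mem_comap] at hc ⊢
    set Y := L c with hY
    have e1 : L (fun i => D (c i)) = Y.map D + (xD A D * Y - Y * xD A D) := by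
      refine hLu _ _ ?_
      have e2 : ((L c)ᵀ * PM A).map D = (PM A * Matrix.of (fun i j => c (i, j))).map D := by
        rw [hL c]
      rw [← hY] at e2
      rw [map_mul_der, map_mul_der, ← xD_mul D] at e2
      have e3 : ((Matrix.of fun i j => c (i, j)) : Matrix (Fin (2 * g)) (Fin (2 * g)) ℂ).map D =
          Matrix.of fun i j => D (c (i, j)) := rfl
      rw [e3] at e2
      rw [Matrix.transpose_add, Matrix.transpose_sub, Matrix.transpose_mul, Matrix.transpose_mul,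
        add_mul, sub_mul]
      have e6 : (Y.map D)ᵀ = Yᵀ.map D := rfl
      rw [e6]
      have e4 : (xD A D)ᵀ * PM A * Matrix.of (fun i j => c (i, j)) =
          (xD A D)ᵀ * (Yᵀ * PM A) := by
        rw [hL c, Matrix.mul_assoc]
      rw [e4] at e2
      have e5 : PM A * Matrix.of (fun i j => D (c (i, j))) =
          (Yᵀ.map D * PM A + Yᵀ * ((xD A D)ᵀ * PM A)) - (xD A D)ᵀ * (Yᵀ * PM A) := by
        rw [e2, add_sub_cancel_left]
      rw [e5, Matrix.mul_assoc, Matrix.mul_assoc]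
      abel
    rw [e1, ← yD_br]
    exact W.add_mem (h1 D Y hc) (h2 D Y hc)
  intro Y hY
  obtain ⟨c, hc⟩ : ∃ c, L c = Y := by
    refine ⟨fun p => ((PM A)⁻¹ * Yᵀ * PM A) p.1 p.2, hLu _ _ ?_⟩
    have e1 : (Matrix.of fun i j => ((PM A)⁻¹ * Yᵀ * PM A) i j :
        Matrix (Fin (2 * g)) (Fin (2 * g)) ℂ) = (PM A)⁻¹ * Yᵀ * PM A := rfl
    rw [e1, ← Matrix.mul_assoc, ← Matrix.mul_assoc, Matrix.mul_nonsing_inv _ PM_unit,
      Matrix.one_mul]
  have hc2 : c ∈ W.comap L := by rwa [Submodule.mem_comap, hc]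
  have h3 := hdef hc2
  rw [← hc]
  clear hc hc2 hY
  induction h3 using Submodule.span_induction with
  | mem c hc =>
    refine Submodule.subset_span ⟨hc.1, fun k l => c (eqv g l, eqv g k), fun k l =>
      mem_QA.1 (hc.2 _), fun k j => ?_⟩
    have h4 := congrFun (congrFun (hL c) j) (eqv g k)
    rw [Matrix.mul_apply, Matrix.mul_apply] at h4
    simp only [Matrix.transpose_apply, PM_apply, Matrix.of_apply] at h4
    rw [h4, ← (eqv g).sum_comp]
    refine Finset.sum_congr rfl fun l _ => ?_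
    rw [PM_apply, mul_comm]
  | zero =>
    rw [map_zero]
    exact Submodule.zero_mem _
  | add x y _ _ hx hy =>
    rw [map_add]
    exact Submodule.add_mem _ hx hy
  | smul a x _ hx =>
    rw [map_smul]
    exact Submodule.smul_mem _ _ hx

/-- A linear map over `F` as a linear map over the rational numbers. -/
def toQ (f : ℂ →ₗ[F] ℂ) : ℂ →ₗ[ℚ] ℂ := f.toAddMonoidHom.toRatLinearMap

theorem toQ_apply (f : ℂ →ₗ[F] ℂ) (z : ℂ) : toQ f z = f z := rfl

theorem stable_of (hF : ∀ x ∈ F, IsAlgebraic ℚ x) (hA : AdSub A F)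
    {W : Submodule ℂ (Matrix (Fin (2 * g)) (Fin (2 * g)) ℂ)} (hW : W ≤ gC A)
    (h1 : ∀ f : ℂ →ₗ[F] ℂ, ∀ Y ∈ W, Y.map f ∈ W)
    (h2 : ∀ D : Derivation QBar ℂ ℂ, ∀ Y ∈ W, yD A D * Y - Y * yD A D ∈ W)
    {X Y : Matrix (Fin (2 * g)) (Fin (2 * g)) ℂ} (hX : X ∈ gC A) (hY : Y ∈ W) :
    X * Y - Y * X ∈ W := by
  have h3 : IsSub A F W := ⟨hW, fun Y hY => mat_coords W h1 hY, dr_desc W (fun D Y hY =>
    h1 (derK (derQ D) F hF) Y hY) h2⟩
  have h4 := hA W h3
  induction hX using Submodule.span_induction with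
  | mem x hx =>
    obtain ⟨X, hX, rfl⟩ := hx
    exact h4 X hX Y hY
  | zero =>
    rw [zero_mul, mul_zero, sub_zero]
    exact W.zero_mem
  | add x y _ _ hx hy =>
    rw [add_mul, mul_add, add_sub_add_comm]
    exact W.add_mem hx hy
  | smul a x _ hx =>
    rw [smul_mul_assoc, mul_smul_comm, ← smul_sub]
    exact W.smul_mem _ hx

end Pool.Agent.H67OM
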