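import Pool.Agent.H67OM.Main1

set_option autoImplicit false
set_option linter.unusedSectionVars false

/-!
# The main lemma
-/

noncomputable section

namespace Pool.Agent.H67OM

open Module Matrix Pool.Agent.TH119.DR Pool.Agent.Y102 Pool.Agent.R917 Pool.Agent.N208.AM
  Pool.Agent.TH119.MX Pool.Agent.W516.DR

variable {g : ℕ} {A : AbVar g} {s n : ℕ} {r : Fin s → ℕ} {B : Fin n → Ten A r} {w : Fin s → ℤ}
  {P P' : Matrix (Fin n) (Fin n) ℂ} {F : Subfield ℂ}

theorem tr_br {m : Type*} [Fintype m] (X Y Z : Matrix m m ℂ) :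
    ((X * Y - Y * X) * Z).trace = (X * (Y * Z - Z * Y)).trace := by
  rw [sub_mul, mul_sub, Matrix.trace_sub, Matrix.trace_sub, Matrix.mul_assoc,
    Matrix.mul_assoc Y X Z, Matrix.trace_mul_comm Y (X * Z), Matrix.mul_assoc]

theorem trace_map_mul {m : Type*} [Fintype m] (f : ℂ →ₗ[F] ℂ) (U Y : Matrix m m ℂ)
    (hY : ∀ i j, Y i j ∈ F) : (U.map f * Y).trace = f ((U * Y).trace) := by
  rw [Matrix.trace, Matrix.trace, map_sum]
  refine Finset.sum_congr rfl fun a _ => ?_
  rw [Matrix.diag_apply, Matrix.diag_apply, Matrix.mul_apply, Matrix.mul_apply, map_sum]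
  refine Finset.sum_congr rfl fun b _ => ?_
  rw [Matrix.map_apply, lin_mul' f (hY b a)]

/-- **Main lemma.** A Lie algebra over `F` between the logarithmic derivatives and the Lie algebra
contains the derived algebra. -/
theorem der_le (hF : ∀ x ∈ F, IsAlgebraic ℚ x) (hA : AdSub A F)
    {Q : Submodule ℂ (Matrix (Fin (2 * g)) (Fin (2 * g)) ℂ)} (hQ : Q ≤ gC A)
    (h1 : ∀ f : ℂ →ₗ[F] ℂ, ∀ Y ∈ Q, Y.map f ∈ Q)
    (h2 : ∀ X ∈ Q, ∀ Y ∈ Q, X * Y - Y * X ∈ Q)
    (h3 : ∀ D : Derivation QBar ℂ ℂ, yD A D ∈ Q)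
    {X Y : Matrix (Fin (2 * g)) (Fin (2 * g)) ℂ} (hX : X ∈ gC A) (hY : Y ∈ gC A) :
    X * Y - Y * X ∈ Q := by
  have hQi : ∀ X ∈ gC A, ∀ Y ∈ Q, X * Y - Y * X ∈ Q := fun X hX Y hY =>
    stable_of hF hA hQ h1 (fun D Y hY => h2 _ (h3 D) Y hY) hX hY
  -- the orthogonal complement
  let Qp : Submodule ℂ (Matrix (Fin (2 * g)) (Fin (2 * g)) ℂ) :=
    { carrier := {U | U ∈ gC A ∧ ∀ Y ∈ Q, (U * Y).trace = 0}
      zero_mem' := ⟨Submodule.zero_mem _, fun Y _ => by rw [zero_mul, Matrix.trace_zero]⟩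
      add_mem' := fun {U V} hU hV => ⟨Submodule.add_mem _ hU.1 hV.1, fun Y hY => by
        rw [add_mul, Matrix.trace_add, hU.2 Y hY, hV.2 Y hY, add_zero]⟩
      smul_mem' := fun c U hU => ⟨Submodule.smul_mem _ _ hU.1, fun Y hY => by
        rw [smul_mul_assoc, Matrix.trace_smul, hU.2 Y hY, smul_zero]⟩ }
  have hcomm : ∀ U ∈ Qp, ∀ Y ∈ Q, U * Y - Y * U = 0 := by
    intro U hU Y hY
    refine gC_nondeg (gC_br hU.1 (hQ hY)) fun X hX => ?_
    rw [tr_br]
    have h4 := hQi X hX Y hY
    rw [← neg_sub (X * Y) (Y * X), mul_neg, Matrix.trace_neg, hU.2 _ h4, neg_zero]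
  have hQmap : ∀ f : ℂ →ₗ[F] ℂ, ∀ U ∈ Qp, U.map f ∈ Qp := by
    intro f U hU
    refine ⟨gC_map hU.1 (toQ f), fun Y hY => ?_⟩
    have h4 := mat_coords Q h1 hY
    clear hY
    induction h4 using Submodule.span_induction with
    | mem Y hY => rw [trace_map_mul f U Y hY.2, hU.2 Y hY.1, map_zero]
    | zero => rw [mul_zero, Matrix.trace_zero]
    | add x y _ _ hx hy => rw [mul_add, Matrix.trace_add, hx, hy, add_zero]
    | smul a x _ hx => rw [mul_smul_comm, Matrix.trace_smul, hx, smul_zero]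
  -- elements with entries in `F`
  have hcen : ∀ U ∈ Qp, (∀ i j, U i j ∈ F) → ∀ X ∈ gC A, X * U - U * X = 0 := by
    intro U hU hUF X hX
    have hline : ∀ X ∈ gC A, X * U - U * X ∈ Submodule.span ℂ {U} := by
      intro X hX
      refine stable_of hF hA (W := Submodule.span ℂ {U})
        (Submodule.span_le.2 (Set.singleton_subset_iff.2 hU.1)) ?_ ?_ hX
        (Submodule.mem_span_singleton_self U)
      · intro f Y hY
        obtain ⟨c, rfl⟩ := Submodule.mem_span_singleton.1 hY
        have h5 : (c • U).map f = f c • U := by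
          ext i j
          rw [Matrix.map_apply, Matrix.smul_apply, smul_eq_mul, lin_mul' f (hUF i j),
            Matrix.smul_apply, smul_eq_mul]
        rw [h5]
        exact Submodule.smul_mem _ _ (Submodule.mem_span_singleton_self U)
      · intro D Y hY
        obtain ⟨c, rfl⟩ := Submodule.mem_span_singleton.1 hY
        have h5 := hcomm U hU _ (h3 D)
        have h6 : yD A D * (c • U) - (c • U) * yD A D = -(c • (U * yD A D - yD A D * U)) := by
          rw [mul_smul_comm, smul_mul_assoc, smul_sub, neg_sub]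
        rw [h6, h5, smul_zero, neg_zero]
        exact Submodule.zero_mem _
    obtain ⟨c, hc⟩ := Submodule.mem_span_singleton.1 (hline X hX)
    by_cases hc0 : c = 0
    · rw [← hc, hc0, zero_smul]
    · have hU0 : U = 0 := by
        refine gC_nondeg hU.1 fun Y hY => ?_
        obtain ⟨e, he⟩ := Submodule.mem_span_singleton.1 (hline Y hY)
        have h5 : c * (U * X).trace = 0 := by
          rw [← smul_eq_mul, ← Matrix.trace_smul, ← smul_mul_assoc, hc, tr_br]
          have : X * (U * X - X * U) = X * U * X - X * (X * U) := by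
            rw [mul_sub, ← Matrix.mul_assoc]
          rw [this, Matrix.trace_sub, Matrix.trace_mul_comm (X * U) X, sub_self]
        have h6 : (U * X).trace = 0 := (mul_eq_zero.1 h5).resolve_left hc0
        have h7 : c * (U * Y).trace = 0 := by
          rw [← smul_eq_mul, ← Matrix.trace_smul, ← smul_mul_assoc, hc, tr_br,
            ← neg_sub (Y * U) (U * Y), ← he, mul_neg, Matrix.trace_neg, mul_smul_comm,
            Matrix.trace_smul, Matrix.trace_mul_comm, h6, smul_zero, neg_zero]
        exact (mul_eq_zero.1 h7).resolve_left hc0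
      rw [hU0, mul_zero, zero_mul, sub_zero]
  have hcen2 : ∀ U ∈ Qp, ∀ X ∈ gC A, X * U - U * X = 0 := by
    intro U hU X hX
    have h4 := mat_coords Qp hQmap hU
    clear hU
    induction h4 using Submodule.span_induction with
    | mem U hU => exact hcen U hU.1 hU.2 X hX
    | zero => rw [mul_zero, zero_mul, sub_zero]
    | add x y _ _ hx hy => rw [mul_add, add_mul, add_sub_add_comm, hx, hy, add_zero]
    | smul a x _ hx => rw [mul_smul_comm, smul_mul_assoc, ← smul_sub, hx, smul_zero]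
  -- the double orthogonal complement
  by_contra hcon
  obtain ⟨φ, hφ1, hφ2⟩ := Submodule.exists_dual_map_eq_bot_of_notMem hcon inferInstance
  let T : gC A →ₗ[ℂ] Module.Dual ℂ (gC A) :=
    LinearMap.mk₂ ℂ (fun U X => (U.1 * X.1).trace)
      (fun a b c => by
        change ((a.1 + b.1) * c.1).trace = _
        rw [add_mul, Matrix.trace_add])
      (fun c a b => by
        change ((c • a.1) * b.1).trace = _
        rw [smul_mul_assoc, Matrix.trace_smul])
      (fun a b c => by
        change (a.1 * (b.1 + c.1)).trace = _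
        rw [mul_add, Matrix.trace_add])
      (fun c a b => by
        change (a.1 * (c • b.1)).trace = _
        rw [mul_smul_comm, Matrix.trace_smul])
  have hTinj : Function.Injective T := by
    rw [← LinearMap.ker_eq_bot, LinearMap.ker_eq_bot']
    intro U hU
    apply Subtype.ext
    exact gC_nondeg U.2 fun X hX => LinearMap.congr_fun hU ⟨X, hX⟩
  have hTsurj : Function.Surjective T :=
    (LinearMap.injective_iff_surjective_of_finrank_eq_finrank
      (Subspace.dual_finrank_eq (K := ℂ) (V := gC A)).symm).1 hTinj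
  obtain ⟨U, hU⟩ := hTsurj (φ.comp (gC A).subtype)
  have hU2 : ∀ X (hX : X ∈ gC A), (U.1 * X).trace = φ X := fun X hX =>
    LinearMap.congr_fun hU ⟨X, hX⟩
  have hUp : U.1 ∈ Qp := ⟨U.2, fun Y hY => by
    rw [hU2 Y (hQ hY)]
    have h4 : φ Y ∈ Submodule.map φ Q := Submodule.mem_map_of_mem hY
    rwa [hφ2, Submodule.mem_bot] at h4⟩
  apply hφ1
  rw [← hU2 _ (gC_br hX hY)]
  have h4 := hcen2 _ hUp X hX
  have h5 : U.1 * X - X * U.1 = 0 := by rw [← neg_sub, h4, neg_zero]
  rw [← tr_br, h5, zero_mul, Matrix.trace_zero]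

end Pool.Agent.H67OM
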