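import Pool.Agent.H67OM.Main2

set_option autoImplicit false
set_option linter.unusedSectionVars false

/-!
# Groups over `F` with a torsor that contains the periods of a motive
-/

noncomputable section

namespace Pool.Agent.H67OM

open Module Matrix Pool.Agent.TH119.DR Pool.Agent.Y102 Pool.Agent.R917 Pool.Agent.N208.AM
  Pool.Agent.TH119.MX Pool.Agent.W516.DR

variable {g : ℕ} {A : AbVar g} {s n : ℕ} {r : Fin s → ℕ} {B : Fin n → Ten A r} {w : Fin s → ℤ}
  {P P' : Matrix (Fin n) (Fin n) ℂ} {F : Subfield ℂ} {H : Set (Matrix (Fin n) (Fin n) ℂ)}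
  {Wt : Matrix (Fin n) (Fin n) ℚ}

/-- The group `H` over `F` has a torsor over the algebraic numbers which contains `P`. -/
structure PtF (F : Subfield ℂ) (P : Matrix (Fin n) (Fin n) ℂ)
    (H : Set (Matrix (Fin n) (Fin n) ℂ)) : Prop where
  grp : AlgGrp F H
  pt : ∃ T T' : Matrix (Fin n) (Fin n) ℂ, T * T' = 1 ∧ (∀ i j, T' i j ∈ QA) ∧ P * T ∈ H

theorem RC_comm (h : Mot w B P) (hW : WRel w B Wt)
    {p : Matrix (Fin (2 * g)) (Fin (2 * g)) ℂ × Matrix (Fin n) (Fin n) ℂ} (hp : p ∈ RC B) :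
    p.2 * cq Wt = cq Wt * p.2 := by
  induction hp using Submodule.span_induction with
  | mem x hx =>
    obtain ⟨X, hX, M, hM, rfl⟩ := hx
    simp only
    rw [← cq_mul, ← cq_mul, WRel.comm h.li hM hW]
  | zero => rw [Prod.snd_zero, mul_zero, zero_mul]
  | add x y _ _ hx hy => rw [Prod.snd_add, mul_add, add_mul, hx, hy]
  | smul c x _ hx => rw [Prod.smul_snd, mul_smul_comm, smul_mul_assoc, hx]

/-- The elements of the complexified Lie algebra whose action is in the Lie algebra of `H` up to a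
multiple of the weight. -/
def QH (B : Fin n → Ten A r) (Wt : Matrix (Fin n) (Fin n) ℚ)
    (H : Set (Matrix (Fin n) (Fin n) ℂ)) :
    Submodule ℂ (Matrix (Fin (2 * g)) (Fin (2 * g)) ℂ) where
  carrier := {Y | ∃ M, (Y, M) ∈ RC B ∧ ∃ c : ℂ, ∀ d, Stab H d (M + c • cq Wt)}
  zero_mem' := ⟨0, Submodule.zero_mem _, 0, fun d => by
    rw [zero_smul, add_zero]
    exact Stab.zero⟩
  add_mem' := by
    rintro X Y ⟨M, hM, c, hc⟩ ⟨N, hN, e, he⟩
    refine ⟨M + N, Submodule.add_mem _ hM hN, c + e, fun d => ?_⟩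
    have h1 := (hc d).add (he d)
    have h2 : M + N + (c + e) • cq Wt = M + c • cq Wt + (N + e • cq Wt) := by
      rw [add_smul]
      abel
    rwa [h2]
  smul_mem' := by
    rintro a X ⟨M, hM, c, hc⟩
    refine ⟨a • M, Submodule.smul_mem _ a hM, a * c, fun d => ?_⟩
    have h1 := (hc d).smul a
    rwa [smul_add, smul_smul] at h1

theorem QH_le : QH B Wt H ≤ gC A := by
  rintro Y ⟨M, hM, -⟩
  exact RC_fst hM

theorem QH_map (hH : AlgGrp F H) (f : ℂ →ₗ[F] ℂ) {Y : Matrix (Fin (2 * g)) (Fin (2 * g)) ℂ}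
    (hY : Y ∈ QH B Wt H) : Y.map f ∈ QH B Wt H := by
  obtain ⟨M, hM, c, hc⟩ := hY
  refine ⟨M.map f, RC_map hM (toQ f), f c, fun d => ?_⟩
  have h1 := hH.stab_map f (hc d)
  have h2 : (M + c • cq Wt).map f = M.map f + f c • cq Wt := by
    ext i j
    have h3 : ((Wt i j : ℚ) : ℂ) ∈ F := SubfieldClass.ratCast_mem F _
    change f (M i j + c * (Wt i j : ℂ)) = f (M i j) + f c * (Wt i j : ℂ)
    rw [map_add, lin_mul' f h3]
  rwa [h2] at h1

theorem QH_br (h : Mot w B P) (hW : WRel w B Wt) {X Y : Matrix (Fin (2 * g)) (Fin (2 * g)) ℂ}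
    (hX : X ∈ QH B Wt H) (hY : Y ∈ QH B Wt H) : ∃ M, (X * Y - Y * X, M) ∈ RC B ∧
      ∀ d, Stab H d M := by
  obtain ⟨M, hM, c, hc⟩ := hX
  obtain ⟨N, hN, e, he⟩ := hY
  refine ⟨_, RC_br hM hN, fun d => ?_⟩
  have h1 := (he d).comm (hc d)
  have e1 := RC_comm h hW hM
  have e2 := RC_comm h hW hN
  simp only at e1 e2
  have h2 : (N + e • cq Wt) * (M + c • cq Wt) - (M + c • cq Wt) * (N + e • cq Wt) =
      N * M - M * N := by
    rw [add_mul, mul_add, mul_add, add_mul, mul_add, mul_add]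
    simp only [smul_mul_assoc, mul_smul_comm, e1, e2, smul_smul]
    rw [mul_comm c e]
    abel
  rwa [h2] at h1

theorem QH_yD (hF : ∀ x ∈ F, IsAlgebraic ℚ x) (h : Mot w B P) (hW : WRel w B Wt)
    (hH : PtF F P H) (D : Derivation QBar ℂ ℂ) : yD A D ∈ QH B Wt H := by
  have hu : IsUnit P.det := isUnit_iff_ne_zero.2 h.det
  have h1 := Matrix.mul_nonsing_inv _ hu
  have h2 := Matrix.nonsing_inv_mul _ hu
  refine ⟨_, yD_RC h h1 hW D, D tau / (2 * tau), fun d => ?_⟩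
  obtain ⟨T, T', h3, h4, h5⟩ := hH.pt
  rw [sub_add_cancel]
  exact hH.grp.stab_der (K := QA) (fun x hx => mem_QA.2 (hF x hx)) (fun x hx => mem_QA.1 hx) h1 h2
    h3 h4 h5 (derQ D)

theorem QH_all (hF : ∀ x ∈ F, IsAlgebraic ℚ x) (hA : AdSub A F) (h : Mot w B P)
    (hW : WRel w B Wt) (hH : PtF F P H) {X Y : Matrix (Fin (2 * g)) (Fin (2 * g)) ℂ}
    (hX : X ∈ gC A) (hY : Y ∈ gC A) : X * Y - Y * X ∈ QH B Wt H := by
  refine der_le hF hA QH_le (fun f Y hY => QH_map hH.grp f hY) (fun X hX Y hY => ?_)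
    (fun D => QH_yD hF h hW hH D) hX hY
  obtain ⟨M, h1, h2⟩ := QH_br h hW hX hY
  exact ⟨M, h1, 0, fun d => by
    rw [zero_smul, add_zero]
    exact h2 d⟩

theorem der_QH (hF : ∀ x ∈ F, IsAlgebraic ℚ x) (hA : AdSub A F) (h : Mot w B P)
    (hW : WRel w B Wt) (hH : PtF F P H) {Z : Module.End ℚ A.H1} (hZ : Z ∈ der A.NA) :
    toC Z ∈ QH B Wt H := by
  unfold der at hZ
  induction hZ using Submodule.span_induction with
  | mem x hx =>
    obtain ⟨X, hX, Y, hY, rfl⟩ := hx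
    rw [toC_sub, toC_mul, toC_mul]
    exact QH_all hF hA h hW hH (toC_mem hX) (toC_mem hY)
  | zero =>
    rw [toC_zero]
    exact Submodule.zero_mem _
  | add x y _ _ hx hy =>
    rw [toC_add]
    exact Submodule.add_mem _ hx hy
  | smul c x _ hx =>
    rw [toC_smul]
    exact Submodule.smul_mem _ _ hx

/-- The derived algebra acts through the Lie algebra of the group. -/
theorem der_stab (hF : ∀ x ∈ F, IsAlgebraic ℚ x) (hA : AdSub A F) (h : Mot w B P)
    (hW : WRel w B Wt) (hH : PtF F P H) {Z : Module.End ℚ A.H1} (hZ : Z ∈ der A.NA)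
    {M : Matrix (Fin n) (Fin n) ℚ} (hM : Rel B Z M) (d : ℕ) : Stab H d (cq M) := by
  have key : ∀ Z ∈ Submodule.span ℚ {Z | ∃ X ∈ der A.NA, ∃ Y ∈ der A.NA, Z = X * Y - Y * X},
      ∃ M, Rel B Z M ∧ ∀ d, Stab H d (cq M) := by
    intro Z hZ
    induction hZ using Submodule.span_induction with
    | mem x hx =>
      obtain ⟨X, hX, Y, hY, rfl⟩ := hx
      have hX' := full_NA.der_le hX
      have hY' := full_NA.der_le hY
      obtain ⟨M, hM⟩ := h.st X hX'
      obtain ⟨N, hN⟩ := h.st Y hY'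
      refine ⟨_, hM.br hN, ?_⟩
      obtain ⟨M', h1, h2⟩ := QH_br h hW (der_QH hF hA h hW hH hX) (der_QH hF hA h hW hH hY)
      have h3 : (toC X * toC Y - toC Y * toC X, cq (N * M - M * N)) ∈ RC B := by
        rw [← toC_mul, ← toC_mul, ← toC_sub]
        exact RC_mem (A.NA_bracket hX' hY') (hM.br hN)
      rw [RC_uniq h.li h3 h1]
      exact h2
    | zero => exact ⟨0, Rel.zero, fun d => by
        rw [cq_zero]
        exact Stab.zero⟩
    | add x y _ _ hx hy =>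
      obtain ⟨M, hM, h1⟩ := hx
      obtain ⟨N, hN, h2⟩ := hy
      exact ⟨M + N, hM.add hN, fun d => by
        rw [cq_add]
        exact (h1 d).add (h2 d)⟩
    | smul c x _ hx =>
      obtain ⟨M, hM, h1⟩ := hx
      exact ⟨c • M, hM.smul c, fun d => by
        rw [cq_smul]
        exact (h1 d).smul _⟩
  obtain ⟨M', h1, h2⟩ := key Z (full_NA.perfect hZ)
  rw [hM.uniq h.li h1]
  exact h2 d

/-- The whole Lie algebra acts through the Lie algebra of the group, if the centre acts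
trivially. -/
theorem all_stab (hF : ∀ x ∈ F, IsAlgebraic ℚ x) (hA : AdSub A F) (h : Mot w B P)
    (hW : WRel w B Wt) (hH : PtF F P H)
    (hc : ∀ X ∈ A.NA, (∀ Y ∈ A.NA, Rel B (X * Y - Y * X) 0) → Rel B X 0)
    {X : Module.End ℚ A.H1} (hX : X ∈ A.NA)
    {M : Matrix (Fin n) (Fin n) ℚ} (hM : Rel B X M) (d : ℕ) : Stab H d (cq M) := by
  obtain ⟨Z, hZ, e, he, rfl, hZc⟩ := full_NA.dec hX
  obtain ⟨N, hN⟩ := h.st e (full_NA.der_le he)
  have h1 : Rel B Z 0 := hc Z hZ fun Y hY => by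
    rw [hZc Y hY, sub_self]
    exact Rel.zero
  have h2 := h1.add hN
  rw [zero_add] at h2
  rw [hM.uniq h.li h2]
  exact der_stab hF hA h hW hH he hN d

theorem RC_stab (hall : ∀ X ∈ A.NA, ∀ M, Rel B X M → ∀ d, Stab H d (cq M))
    {p : Matrix (Fin (2 * g)) (Fin (2 * g)) ℂ × Matrix (Fin n) (Fin n) ℂ} (hp : p ∈ RC B) (d : ℕ) :
    Stab H d p.2 := by
  induction hp using Submodule.span_induction with
  | mem x hx =>
    obtain ⟨X, hX, M, hM, rfl⟩ := hx
    exact hall X hX M hM d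
  | zero => exact Stab.zero
  | add x y _ _ hx hy => exact hx.add hy
  | smul c x _ hx => exact hx.smul c

theorem wt_stab (hF : ∀ x ∈ F, IsAlgebraic ℚ x) (h : Mot w B P)
    (hW : WRel w B Wt) (hH : PtF F P H)
    (hall : ∀ X ∈ A.NA, ∀ M, Rel B X M → ∀ d, Stab H d (cq M)) (d : ℕ) : Stab H d (cq Wt) := by
  obtain ⟨D, lam, hne⟩ := R917.exists_der
  have hne' : D tau / (2 * tau) ≠ 0 := by
    intro h0
    rw [h0, map_zero] at hne
    exact hne rfl
  have hu : IsUnit P.det := isUnit_iff_ne_zero.2 h.det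
  have h1 := Matrix.mul_nonsing_inv _ hu
  have h2 := Matrix.nonsing_inv_mul _ hu
  obtain ⟨T, T', h3, h4, h5⟩ := hH.pt
  have e1 : Stab H d (P.map D * P⁻¹) :=
    hH.grp.stab_der (K := QA) (fun x hx => mem_QA.2 (hF x hx)) (fun x hx => mem_QA.1 hx) h1 h2
      h3 h4 h5 (derQ D)
  have e2 := RC_stab hall (yD_RC h h1 hW D) d
  simp only at e2
  have e3 := e1.add (e2.smul (-1))
  rw [neg_one_smul, ← sub_eq_add_neg, sub_sub_cancel] at e3
  have e4 := e3.smul (D tau / (2 * tau))⁻¹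
  rwa [smul_smul, inv_mul_cancel₀ hne', one_smul] at e4

/-- Exponentials of complex combinations. -/
theorem exp_span {S : Set (Matrix (Fin n) (Fin n) ℂ)} (hH : AlgGrp F H)
    (hS : ∀ M ∈ S, ∀ d, Stab H d M) {Z : Matrix (Fin n) (Fin n) ℂ}
    (hZ : Z ∈ Submodule.span ℂ S) : NormedSpace.exp Z ∈ H := by
  refine exp_mem hH fun d => ?_
  induction hZ using Submodule.span_induction with
  | mem x hx => exact hS x hx d
  | zero => exact Stab.zero
  | add x y _ _ hx hy => exact hx.add hy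
  | smul c x _ hx => exact hx.smul c

end Pool.Agent.H67OM
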