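import Pool.Agent.H67OM.Main3

set_option autoImplicit false
set_option linter.unusedSectionVars false

/-!
# The stabilizer of a de Rham-Betti subobject
-/

noncomputable section

namespace Pool.Agent.H67OM

open Module Matrix Pool.Agent.TH119.DR Pool.Agent.Y102 Pool.Agent.R917 Pool.Agent.N208.AM
  Pool.Agent.TH119.MX Pool.Agent.W516.DR

section Eqs

variable {m : Type} [Fintype m] [DecidableEq m] {K : Subfield ℂ}

/-- The matrix with values in the complex numbers. -/
def toCx (Z : Matrix m m K) : Matrix m m ℂ := Z.map fun x => (x : ℂ)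

theorem toCx_apply (Z : Matrix m m K) (i j : m) : toCx Z i j = (Z i j : ℂ) := rfl

/-- `L` is an equation of `V` over `K`. -/
def IsEq (V : Submodule ℂ (Matrix m m ℂ)) (L : Matrix m m K) : Prop :=
  ∀ Z : Matrix m m K, toCx Z ∈ V → ∑ i, ∑ j, L i j * Z i j = 0

theorem mem_of_eqs {V : Submodule ℂ (Matrix m m ℂ)} {Y : Matrix m m ℂ}
    (hY : ∀ L : Matrix m m K, IsEq V L → ∑ i, ∑ j, (L i j : ℂ) * Y i j = 0) : Y ∈ V := by
  obtain ⟨J, s, e, f, hf, hz⟩ := exists_coords K (Finset.univ.image fun p : m × m => Y p.1 p.2)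
  have h1 : Y = ∑ j ∈ s, e j • Y.map (f j) := by
    ext a b
    rw [Matrix.sum_apply]
    exact hz (Y a b) (Finset.mem_image_of_mem (fun p : m × m => Y p.1 p.2) (Finset.mem_univ (a, b)))
  rw [h1]
  refine Submodule.sum_mem _ fun k _ => Submodule.smul_mem _ _ ?_
  let VK : Submodule K (Matrix m m K) :=
    { carrier := {Z | toCx Z ∈ V}
      zero_mem' := by
        have h2 : toCx (0 : Matrix m m K) = 0 := by
          ext i j
          rfl
        rw [Set.mem_setOf_eq, h2]
        exact V.zero_mem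
      add_mem' := fun {Z Z'} h h' => by
        have h2 : toCx (Z + Z') = toCx Z + toCx Z' := by
          ext i j
          rfl
        rw [Set.mem_setOf_eq, h2]
        exact V.add_mem h h'
      smul_mem' := fun c Z h => by
        have h2 : toCx (c • Z) = (c : ℂ) • toCx Z := by
          ext i j
          rfl
        rw [Set.mem_setOf_eq, h2]
        exact V.smul_mem _ h }
  let Yk : Matrix m m K := Matrix.of fun a b => ⟨f k (Y a b), hf k _⟩
  have h2 : Yk ∈ VK := by
    by_contra hcon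
    obtain ⟨φ, hφ1, hφ2⟩ := Submodule.exists_dual_map_eq_bot_of_notMem hcon inferInstance
    let L : Matrix m m K := Matrix.of fun a b => φ (Matrix.single a b 1)
    have hφ : ∀ Z : Matrix m m K, ∑ i, ∑ j, L i j * Z i j = φ Z := by
      intro Z
      conv_rhs => rw [Matrix.matrix_eq_sum_single Z]
      rw [map_sum]
      refine Finset.sum_congr rfl fun i _ => ?_
      rw [map_sum]
      refine Finset.sum_congr rfl fun j _ => ?_
      have h3 : Matrix.single i j (Z i j) = Z i j • Matrix.single i j (1 : K) := by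
        rw [Matrix.smul_single, smul_eq_mul, mul_one]
      rw [h3, map_smul, smul_eq_mul, mul_comm]
      rfl
    have h3 := hY L fun Z hZ => by
      rw [hφ]
      have h4 : φ Z ∈ VK.map φ := ⟨Z, hZ, rfl⟩
      rw [hφ2] at h4
      exact (Submodule.mem_bot K).1 h4
    have h4 := congrArg (f k) h3
    rw [map_zero, map_sum] at h4
    apply hφ1
    rw [← hφ]
    apply Subtype.ext
    push_cast
    rw [← h4]
    refine Finset.sum_congr rfl fun i _ => ?_
    rw [map_sum]
    refine Finset.sum_congr rfl fun j _ => ?_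
    rw [mul_comm ((L i j : K) : ℂ) (Y i j), lin_mul' (f k) (L i j).2, mul_comm]
    rfl
  exact h2

theorem eq_of_mem {V : Submodule ℂ (Matrix m m ℂ)}
    (hV : V ≤ Submodule.span ℂ {Z | Z ∈ V ∧ ∀ i j, Z i j ∈ K}) {L : Matrix m m K} (hL : IsEq V L)
    {Y : Matrix m m ℂ} (hY : Y ∈ V) : ∑ i, ∑ j, (L i j : ℂ) * Y i j = 0 := by
  have h1 := hV hY
  clear hY
  induction h1 using Submodule.span_induction with
  | mem Z hZ =>
    have h2 := hL (Matrix.of fun i j => ⟨Z i j, hZ.2 i j⟩) hZ.1
    have h3 := congrArg (fun x : K => (x : ℂ)) h2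
    push_cast at h3
    exact h3
  | zero => simp
  | add x y _ _ hx hy =>
    simp only [Matrix.add_apply, mul_add, Finset.sum_add_distrib]
    rw [hx, hy, add_zero]
  | smul c x _ hx =>
    have h2 : ∑ i, ∑ j, (L i j : ℂ) * (c • x) i j = c * ∑ i, ∑ j, (L i j : ℂ) * x i j := by
      rw [Finset.mul_sum]
      refine Finset.sum_congr rfl fun i _ => ?_
      rw [Finset.mul_sum]
      refine Finset.sum_congr rfl fun j _ => ?_
      rw [Matrix.smul_apply, smul_eq_mul]
      ring
    rw [h2, hx, mul_zero]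

/-! ### The stabilizer -/

/-- Conjugation by an invertible matrix. -/
def conj (x : GL m ℂ) : Matrix m m ℂ →ₗ[ℂ] Matrix m m ℂ where
  toFun Z := (x : Matrix m m ℂ) * Z * ((x⁻¹ : GL m ℂ) : Matrix m m ℂ)
  map_add' Y Z := by rw [mul_add, add_mul]
  map_smul' c Z := by rw [mul_smul_comm, smul_mul_assoc, RingHom.id_apply]

theorem conj_apply (x : GL m ℂ) (Z : Matrix m m ℂ) :
    conj x Z = (x : Matrix m m ℂ) * Z * ((x⁻¹ : GL m ℂ) : Matrix m m ℂ) := rfl

theorem conj_mul (x y : GL m ℂ) (Z : Matrix m m ℂ) : conj (x * y) Z = conj x (conj y Z) := by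
  rw [conj_apply, conj_apply, conj_apply, _root_.mul_inv_rev, Units.val_mul, Units.val_mul]
  simp only [Matrix.mul_assoc]

theorem conj_one (Z : Matrix m m ℂ) : conj 1 Z = Z := by
  rw [conj_apply, inv_one, Units.val_one, one_mul, mul_one]

theorem conj_inj (x : GL m ℂ) : Function.Injective (conj x) := fun Y Z h => by
  have h1 := congrArg (conj x⁻¹) h
  rwa [← conj_mul, ← conj_mul, inv_mul_cancel, conj_one, conj_one] at h1

/-- The stabilizer of a subspace of matrices. -/
def stabG (V : Submodule ℂ (Matrix m m ℂ)) : Subgroup (GL m ℂ) where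
  carrier := {x | ∀ Z ∈ V, conj x Z ∈ V}
  one_mem' := fun Z hZ => by rwa [conj_one]
  mul_mem' := fun {x y} hx hy Z hZ => by
    rw [conj_mul]
    exact hx _ (hy Z hZ)
  inv_mem' := fun {x} hx => by
    have h1 : V.map (conj x) = V := by
      refine Submodule.eq_of_le_of_finrank_eq (Submodule.map_le_iff_le_comap.2 hx) ?_
      exact (Submodule.equivMapOfInjective (conj x) (conj_inj x) V).finrank_eq.symm
    intro Z hZ
    have h2 : Z ∈ V.map (conj x) := by rwa [h1]
    obtain ⟨Y, hY, rfl⟩ := h2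
    rwa [← conj_mul, inv_mul_cancel, conj_one]

theorem mem_stabG {V : Submodule ℂ (Matrix m m ℂ)} {x : GL m ℂ} :
    x ∈ stabG V ↔ ∀ Z ∈ V, conj x Z ∈ V := Iff.rfl

theorem conj_adj (x : GL m ℂ) (Z : Matrix m m ℂ) :
    (x : Matrix m m ℂ) * Z * (x : Matrix m m ℂ).adjugate =
      (x : Matrix m m ℂ).det • conj x Z := by
  have h1 : (x : Matrix m m ℂ).adjugate = (x : Matrix m m ℂ).det •
      ((x⁻¹ : GL m ℂ) : Matrix m m ℂ) := by
    have h2 : (x : Matrix m m ℂ) * (x : Matrix m m ℂ).adjugate =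
        (x : Matrix m m ℂ).det • (1 : Matrix m m ℂ) := Matrix.mul_adjugate _
    have h3 : ((x⁻¹ : GL m ℂ) : Matrix m m ℂ) * ((x : Matrix m m ℂ) *
        (x : Matrix m m ℂ).adjugate) = ((x⁻¹ : GL m ℂ) : Matrix m m ℂ) *
        ((x : Matrix m m ℂ).det • (1 : Matrix m m ℂ)) := by rw [h2]
    rw [← Matrix.mul_assoc, ← Units.val_mul, inv_mul_cancel, Units.val_one, Matrix.one_mul,
      mul_smul_comm, Matrix.mul_one] at h3
    exact h3
  rw [h1, mul_smul_comm, conj_apply]

/-- The equations of the stabilizer. -/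
theorem stabG_alg {V : Submodule ℂ (Matrix m m ℂ)}
    (hV : V ≤ Submodule.span ℂ {Z | Z ∈ V ∧ ∀ i j, Z i j ∈ K}) :
    ∃ I : Set (MvPolynomial (m × m) K), ∀ x : GL m ℂ, x ∈ stabG V ↔
      ∀ p ∈ I, MvPolynomial.aeval (fun b : m × m => (x : Matrix m m ℂ) b.1 b.2) p = 0 := by
  let X : Matrix m m (MvPolynomial (m × m) K) := Matrix.of fun i j => MvPolynomial.X (i, j)
  let pol : Matrix m m K → Matrix m m K → MvPolynomial (m × m) K := fun L Z =>
    ∑ i, ∑ j, MvPolynomial.C (L i j) *
      (X * Z.map MvPolynomial.C * X.adjugate : Matrix m m (MvPolynomial (m × m) K)) i j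
  have hpol : ∀ (x : GL m ℂ) (L Z : Matrix m m K),
      MvPolynomial.aeval (fun b : m × m => (x : Matrix m m ℂ) b.1 b.2) (pol L Z) =
        ∑ i, ∑ j, (L i j : ℂ) *
          ((x : Matrix m m ℂ) * toCx Z * (x : Matrix m m ℂ).adjugate) i j := by
    intro x L Z
    let φ : MvPolynomial (m × m) K →+* ℂ :=
      (MvPolynomial.aeval (fun b : m × m => (x : Matrix m m ℂ) b.1 b.2) :
        MvPolynomial (m × m) K →ₐ[K] ℂ).toRingHom
    have h1 : φ.mapMatrix X = (x : Matrix m m ℂ) := by
      ext i j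
      rw [RingHom.mapMatrix_apply, Matrix.map_apply]
      exact MvPolynomial.aeval_X _ _
    have h2 : φ.mapMatrix (Z.map MvPolynomial.C) = toCx Z := by
      ext i j
      rw [RingHom.mapMatrix_apply, Matrix.map_apply, Matrix.map_apply]
      exact MvPolynomial.aeval_C _ _
    have h3 : φ.mapMatrix (X * Z.map MvPolynomial.C * X.adjugate) =
        (x : Matrix m m ℂ) * toCx Z * (x : Matrix m m ℂ).adjugate := by
      rw [map_mul, map_mul, h1, h2, RingHom.map_adjugate, h1]
    change φ (pol L Z) = _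
    rw [map_sum]
    refine Finset.sum_congr rfl fun i _ => ?_
    rw [map_sum]
    refine Finset.sum_congr rfl fun j _ => ?_
    rw [map_mul, ← h3]
    congr 1
    exact MvPolynomial.aeval_C _ _
  refine ⟨{p | ∃ L Z : Matrix m m K, IsEq V L ∧ toCx Z ∈ V ∧ p = pol L Z}, fun x => ?_⟩
  constructor
  · rintro hx _ ⟨L, Z, hL, hZ, rfl⟩
    rw [hpol, conj_adj]
    exact eq_of_mem hV hL (V.smul_mem _ (hx _ hZ))
  · intro hx Z hZ
    have h1 := hV hZ
    clear hZ
    induction h1 using Submodule.span_induction with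
    | mem Z hZ =>
      refine mem_of_eqs (K := K) fun L hL => ?_
      have h2 := hx _ ⟨L, Matrix.of fun i j => ⟨Z i j, hZ.2 i j⟩, hL, hZ.1, rfl⟩
      rw [hpol, conj_adj] at h2
      have h3 : toCx (Matrix.of fun i j => (⟨Z i j, hZ.2 i j⟩ : K)) = Z := rfl
      rw [h3] at h2
      have h4 : (x : Matrix m m ℂ).det * ∑ i, ∑ j, (L i j : ℂ) * conj x Z i j = 0 := by
        rw [← h2, Finset.mul_sum]
        refine Finset.sum_congr rfl fun i _ => ?_
        rw [Finset.mul_sum]
        refine Finset.sum_congr rfl fun j _ => ?_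
        rw [Matrix.smul_apply, smul_eq_mul]
        ring
      exact (mul_eq_zero.1 h4).resolve_left (Matrix.GeneralLinearGroup.det x).ne_zero
    | zero =>
      rw [map_zero]
      exact V.zero_mem
    | add y z _ _ hy hz =>
      rw [map_add]
      exact V.add_mem hy hz
    | smul c y _ hy =>
      rw [map_smul]
      exact V.smul_mem _ hy

end Eqs

end Pool.Agent.H67OM
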