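import Pool.Agent.H67OM.Main4

set_option autoImplicit false
set_option linter.unusedSectionVars false

/-!
# A torsor over the algebraic numbers for the stabilizer, and the converse
-/

noncomputable section

namespace Pool.Agent.H67OM

open Module Matrix Pool.Agent.TH119.DR Pool.Agent.Y102 Pool.Agent.R917 Pool.Agent.N208.AM
  Pool.Agent.TH119.MX Pool.Agent.W516.DR

section Tor

variable {m : Type} [Fintype m] [DecidableEq m]

/-- The same algebraic number. -/
def qb (x : QA) : QBar := ⟨x, mem_algebraicClosure_iff.2 (mem_QA.1 x.2)⟩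

theorem qb_coe (x : QA) : ((qb x : QBar) : ℂ) = x := rfl

theorem aeval_C' {σ : Type} (z : σ → ℂ) (x : QBar) :
    MvPolynomial.aeval z (MvPolynomial.C x : MvPolynomial σ QBar) = (x : ℂ) :=
  MvPolynomial.aeval_C _ _

/-- The stabilizer of a subspace which is defined over the algebraic numbers on both sides has a torsor
over the algebraic numbers. -/
theorem exists_T {V VD : Submodule ℂ (Matrix m m ℂ)} {P : Matrix m m ℂ} (hP : IsUnit P.det)
    (hVD : ∀ c, c ∈ VD ↔ P * c * P⁻¹ ∈ V)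
    (hV : V ≤ Submodule.span ℂ {Z | Z ∈ V ∧ ∀ i j, Z i j ∈ QA})
    (hD : VD ≤ Submodule.span ℂ {Z | Z ∈ VD ∧ ∀ i j, Z i j ∈ QA}) :
    ∃ T : Matrix m m ℂ, (∀ i j, IsAlgebraic ℚ (T i j)) ∧
      ∃ x ∈ stabG V, (x : Matrix m m ℂ) = P * T := by
  have hP1 := Matrix.mul_nonsing_inv P hP
  have hP2 := Matrix.nonsing_inv_mul P hP
  let σ : Type := (m × m) ⊕ (m × m)
  let X : Matrix m m (MvPolynomial σ QBar) := Matrix.of fun i j => MvPolynomial.X (Sum.inl (i, j))
  let X' : Matrix m m (MvPolynomial σ QBar) := Matrix.of fun i j => MvPolynomial.X (Sum.inr (i, j))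
  let p1 : m → m → MvPolynomial σ QBar := fun i j =>
    (X * X' - 1 : Matrix m m (MvPolynomial σ QBar)) i j
  let p2 : Matrix m m QA → Matrix m m QA → MvPolynomial σ QBar := fun L Z =>
    ∑ i, ∑ j, MvPolynomial.C (qb (L i j)) *
      (X * (Z.map fun x => MvPolynomial.C (qb x)) * X' : Matrix m m (MvPolynomial σ QBar)) i j
  have e1 : ∀ (z : σ → ℂ) (i j : m), MvPolynomial.aeval z (p1 i j) =
      ((Matrix.of fun i j => z (Sum.inl (i, j))) * (Matrix.of fun i j => z (Sum.inr (i, j))) -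
        1 : Matrix m m ℂ) i j := by
    intro z i j
    change MvPolynomial.aeval z ((X * X') i j - (1 : Matrix m m (MvPolynomial σ QBar)) i j) = _
    rw [map_sub, Matrix.sub_apply, Matrix.mul_apply, map_sum, Matrix.mul_apply]
    congr 1
    · refine Finset.sum_congr rfl fun k _ => ?_
      rw [map_mul]
      congr 1
      · exact MvPolynomial.aeval_X _ _
      · exact MvPolynomial.aeval_X _ _
    · rw [Matrix.one_apply, Matrix.one_apply]
      split_ifs
      · rw [map_one]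
      · rw [map_zero]
  have e2 : ∀ (z : σ → ℂ) (L Z : Matrix m m QA), MvPolynomial.aeval z (p2 L Z) =
      ∑ i, ∑ j, (L i j : ℂ) * ((Matrix.of fun i j => z (Sum.inl (i, j))) * toCx Z *
        (Matrix.of fun i j => z (Sum.inr (i, j))) : Matrix m m ℂ) i j := by
    intro z L Z
    change MvPolynomial.aeval z (∑ i, ∑ j, MvPolynomial.C (qb (L i j)) *
      (X * (Z.map fun x => MvPolynomial.C (qb x)) * X' : Matrix m m (MvPolynomial σ QBar)) i j) = _
    rw [map_sum]
    refine Finset.sum_congr rfl fun i _ => ?_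
    rw [map_sum]
    refine Finset.sum_congr rfl fun j _ => ?_
    rw [map_mul, aeval_C', qb_coe, Matrix.mul_apply, map_sum, Matrix.mul_apply]
    congr 1
    refine Finset.sum_congr rfl fun k _ => ?_
    rw [map_mul, Matrix.mul_apply, map_sum, Matrix.mul_apply]
    congr 1
    · refine Finset.sum_congr rfl fun l _ => ?_
      rw [map_mul, Matrix.map_apply, aeval_C', qb_coe]
      congr 1
      exact MvPolynomial.aeval_X _ _
    · exact MvPolynomial.aeval_X _ _
  have hinv : ∀ Z, Z ∈ V → P⁻¹ * Z * P ∈ VD := by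
    intro Z hZ
    rw [hVD]
    have : P * (P⁻¹ * Z * P) * P⁻¹ = Z := by
      calc P * (P⁻¹ * Z * P) * P⁻¹ = (P * P⁻¹) * Z * (P * P⁻¹) := by
            simp only [Matrix.mul_assoc]
        _ = Z := by rw [hP1, Matrix.one_mul, Matrix.mul_one]
    rwa [this]
  obtain ⟨y, hy⟩ := exists_alg_point
    {p | (∃ i j, p = p1 i j) ∨ ∃ L Z, IsEq VD L ∧ toCx Z ∈ V ∧ p = p2 L Z}
    (Sum.elim (fun b => P⁻¹ b.1 b.2) (fun b => P b.1 b.2)) (by
      rintro p (⟨i, j, rfl⟩ | ⟨L, Z, hL, hZ, rfl⟩)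
      · rw [e1]
        have h1 : ((Matrix.of fun i j => Sum.elim (fun b : m × m => P⁻¹ b.1 b.2)
            (fun b : m × m => P b.1 b.2) (Sum.inl (i, j))) : Matrix m m ℂ) = P⁻¹ := rfl
        have h2 : ((Matrix.of fun i j => Sum.elim (fun b : m × m => P⁻¹ b.1 b.2)
            (fun b : m × m => P b.1 b.2) (Sum.inr (i, j))) : Matrix m m ℂ) = P := rfl
        rw [h1, h2, hP2, sub_self, Matrix.zero_apply]
      · rw [e2]
        have h1 : ((Matrix.of fun i j => Sum.elim (fun b : m × m => P⁻¹ b.1 b.2)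
            (fun b : m × m => P b.1 b.2) (Sum.inl (i, j))) : Matrix m m ℂ) = P⁻¹ := rfl
        have h2 : ((Matrix.of fun i j => Sum.elim (fun b : m × m => P⁻¹ b.1 b.2)
            (fun b : m × m => P b.1 b.2) (Sum.inr (i, j))) : Matrix m m ℂ) = P := rfl
        rw [h1, h2]
        exact eq_of_mem hD hL (hinv _ hZ))
  have hy' : ∀ p ∈ {p | (∃ i j, p = p1 i j) ∨ ∃ L Z, IsEq VD L ∧ toCx Z ∈ V ∧ p = p2 L Z},
      MvPolynomial.aeval (fun s => (y s : ℂ)) p = 0 := by
    intro p hp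
    have h1 := hy p hp
    have h2 : MvPolynomial.aeval (fun s => (y s : ℂ)) p = ((MvPolynomial.eval y p : QBar) : ℂ) := by
      have h3 := MvPolynomial.aeval_algebraMap_apply (B := ℂ) y p
      rw [MvPolynomial.aeval_eq_eval] at h3
      exact h3
    rw [h2, h1]
    rfl
  set T : Matrix m m ℂ := Matrix.of fun i j => (y (Sum.inl (i, j)) : ℂ) with hT
  set T' : Matrix m m ℂ := Matrix.of fun i j => (y (Sum.inr (i, j)) : ℂ) with hT'
  have h1 : T * T' = 1 := by
    rw [← sub_eq_zero]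
    ext i j
    have := hy' (p1 i j) (Or.inl ⟨i, j, rfl⟩)
    rw [e1] at this
    exact this
  have h2 : T' * T = 1 := mul_eq_one_comm.1 h1
  refine ⟨T, fun i j => mem_algebraicClosure_iff.1 (y (Sum.inl (i, j))).2,
    ⟨P * T, T' * P⁻¹, ?_, ?_⟩, ?_, rfl⟩
  · calc P * T * (T' * P⁻¹) = P * (T * T') * P⁻¹ := by simp only [Matrix.mul_assoc]
      _ = 1 := by rw [h1, Matrix.mul_one, hP1]
  · calc T' * P⁻¹ * (P * T) = T' * (P⁻¹ * P) * T := by simp only [Matrix.mul_assoc]
      _ = 1 := by rw [hP2, Matrix.mul_one, h2]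
  · intro Z hZ
    have h3 := hV hZ
    clear hZ
    induction h3 using Submodule.span_induction with
    | mem Z hZ =>
      have h4 : T * Z * T' ∈ VD := by
        refine mem_of_eqs (K := QA) fun L hL => ?_
        have h5 := hy' (p2 L (Matrix.of fun i j => ⟨Z i j, hZ.2 i j⟩))
          (Or.inr ⟨L, Matrix.of fun i j => ⟨Z i j, hZ.2 i j⟩, hL, hZ.1, rfl⟩)
        rw [e2] at h5
        exact h5
      have h5 : conj (⟨P * T, T' * P⁻¹, by
          calc P * T * (T' * P⁻¹) = P * (T * T') * P⁻¹ := by simp only [Matrix.mul_assoc]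
            _ = 1 := by rw [h1, Matrix.mul_one, hP1], by
          calc T' * P⁻¹ * (P * T) = T' * (P⁻¹ * P) * T := by simp only [Matrix.mul_assoc]
            _ = 1 := by rw [hP2, Matrix.mul_one, h2]⟩ : GL m ℂ) Z = P * (T * Z * T') * P⁻¹ := by
        change P * T * Z * (T' * P⁻¹) = _
        simp only [Matrix.mul_assoc]
      rw [h5]
      exact (hVD _).1 h4
    | zero =>
      rw [map_zero]
      exact V.zero_mem
    | add y z _ _ hy hz =>
      rw [map_add]
      exact V.add_mem hy hz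
    | smul c y _ hy =>
      rw [map_smul]
      exact V.smul_mem _ hy

/-- The Lie algebra of the stabilizer. -/
theorem deriv_stab {V : Submodule ℂ (Matrix m m ℂ)} {M : Matrix m m ℂ}
    (h : ∀ t : ℂ, ∃ x ∈ stabG V, (x : Matrix m m ℂ) = NormedSpace.exp (t • M))
    {Z : Matrix m m ℂ} (hZ : Z ∈ V) : M * Z - Z * M ∈ V := by
  letI : NormedRing (Matrix m m ℂ) := Matrix.linftyOpNormedRing
  letI : NormedAlgebra ℂ (Matrix m m ℂ) := Matrix.linftyOpNormedAlgebra
  by_contra hcon
  obtain ⟨φ, hφ1, hφ2⟩ := Submodule.exists_dual_map_eq_bot_of_notMem hcon inferInstance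
  have h0 : ∀ Y ∈ V, φ Y = 0 := by
    intro Y hY
    have h4 : φ Y ∈ V.map φ := ⟨Y, hY, rfl⟩
    rw [hφ2] at h4
    exact (Submodule.mem_bot ℂ).1 h4
  have h1 : HasDerivAt (fun t : ℂ => NormedSpace.exp (t • M))
      (NormedSpace.exp ((0 : ℂ) • M) * M) 0 := hasDerivAt_exp_smul_const M 0
  have h2 : HasDerivAt (fun t : ℂ => NormedSpace.exp (t • (-M)))
      (NormedSpace.exp ((0 : ℂ) • (-M)) * (-M)) 0 := hasDerivAt_exp_smul_const (-M) 0
  have h3 := (h1.mul_const Z).mul h2
  have h4 := (LinearMap.toContinuousLinearMap φ).hasFDerivAt.comp_hasDerivAt (0 : ℂ) h3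
  have h5 : (LinearMap.toContinuousLinearMap φ) ∘
      ((fun t : ℂ => NormedSpace.exp (t • M) * Z) * fun t : ℂ => NormedSpace.exp (t • (-M))) =
      fun _ => (0 : ℂ) := by
    funext t
    obtain ⟨x, hx, hxt⟩ := h t
    have h6 := h0 _ (hx Z hZ)
    rw [conj_apply, Matrix.coe_units_inv, hxt, ← Matrix.exp_neg, ← smul_neg] at h6
    exact h6
  rw [h5] at h4
  have h7 := h4.unique (hasDerivAt_const (0 : ℂ) (0 : ℂ))
  apply hφ1
  rw [← h7]
  change φ _ = φ _
  congr 1
  simp only [zero_smul, NormedSpace.exp_zero, one_mul, mul_one]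
  rw [mul_neg, sub_eq_add_neg]

end Tor

end Pool.Agent.H67OM
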