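import Pool.Agent.H67OM.Main5

set_option autoImplicit false
set_option linter.unusedSectionVars false

/-!
# The converse
-/

noncomputable section

namespace Pool.Agent.H67OM

open Module Matrix Pool.Agent.TH119.DR Pool.Agent.Y102 Pool.Agent.R917 Pool.Agent.N208.AM
  Pool.Agent.TH119.MX Pool.Agent.W516.DR

variable {g : ℕ} {A : AbVar g} {F : Subfield ℂ}

/-- A subgroup of the general linear group defined by polynomials over `F`. -/
def AlgSub (F : Subfield ℂ) {R : Type} [Fintype R] [DecidableEq R] (G : Subgroup (GL R ℂ)) :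
    Prop :=
  ∃ I : Set (MvPolynomial (R × R) F), ∀ x : GL R ℂ, x ∈ G ↔
    ∀ p ∈ I, MvPolynomial.aeval (fun b : R × R => (x : Matrix R R ℂ) b.1 b.2) p = 0

/-- An algebraic group over `F`. -/
theorem algGrp_of' {R : Type} [Fintype R] [DecidableEq R] {G : Subgroup (GL R ℂ)}
    (hG : AlgSub F G) :
    AlgGrp F {M : Matrix R R ℂ | ∃ x ∈ G, (x : Matrix R R ℂ) = M} where
  one := ⟨1, one_mem G, Units.val_one⟩
  mul := by
    rintro _ ⟨x, hx, rfl⟩ _ ⟨y, hy, rfl⟩
    exact ⟨x * y, mul_mem hx hy, Units.val_mul x y⟩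
  inv := by
    rintro _ ⟨x, hx, rfl⟩
    exact ⟨_, ⟨x⁻¹, inv_mem hx, rfl⟩, x.val_inv, x.inv_val⟩
  alg := by
    obtain ⟨I, hI⟩ := hG
    refine ⟨(MvPolynomial.map (algebraMap F ℂ)) '' I, ?_, fun M => ?_⟩
    · rintro _ ⟨p, _, rfl⟩ m
      rw [MvPolynomial.coeff_map]
      exact (p.coeff m).2
    · have key : ∀ (M : Matrix R R ℂ) (p : MvPolynomial (R × R) F),
          MvPolynomial.eval (fun b : R × R => M b.1 b.2) (MvPolynomial.map (algebraMap F ℂ) p) =
            MvPolynomial.aeval (fun b : R × R => M b.1 b.2) p := by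
        intro M p
        rw [MvPolynomial.eval_map]
        rfl
      constructor
      · rintro ⟨x, hx, rfl⟩
        refine ⟨⟨(x⁻¹ : GL R ℂ), x.val_inv, x.inv_val⟩, ?_⟩
        rintro _ ⟨p, hp, rfl⟩
        rw [key]
        exact (hI x).1 hx p hp
      · rintro ⟨⟨M', h1, h2⟩, h3⟩
        refine ⟨⟨M, M', h1, h2⟩, (hI _).2 fun p hp => ?_, rfl⟩
        have h4 := h3 _ ⟨p, hp, rfl⟩
        rw [key] at h4
        exact h4

/-- The transposed matrices. -/
def trS {m : Type} (W : Submodule ℂ (Matrix m m ℂ)) : Submodule ℂ (Matrix m m ℂ) where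
  carrier := {Z | Zᵀ ∈ W}
  zero_mem' := by
    rw [Set.mem_setOf_eq, Matrix.transpose_zero]
    exact W.zero_mem
  add_mem' := fun {x y} hx hy => by
    rw [Set.mem_setOf_eq, Matrix.transpose_add]
    exact W.add_mem hx hy
  smul_mem' := fun c x hx => by
    rw [Set.mem_setOf_eq, Matrix.transpose_smul]
    exact W.smul_mem _ hx

theorem mem_trS {m : Type} {W : Submodule ℂ (Matrix m m ℂ)} {Z : Matrix m m ℂ} :
    Z ∈ trS W ↔ Zᵀ ∈ W := Iff.rfl

theorem span_tr {m : Type} {W : Submodule ℂ (Matrix m m ℂ)} {K : Subfield ℂ}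
    (hW : W ≤ Submodule.span ℂ {Y | Y ∈ W ∧ ∀ i j, Y i j ∈ K}) :
    trS W ≤ Submodule.span ℂ {Z | Z ∈ trS W ∧ ∀ i j, Z i j ∈ K} := by
  have key : ∀ Y ∈ Submodule.span ℂ {Y | Y ∈ W ∧ ∀ i j, Y i j ∈ K},
      Yᵀ ∈ Submodule.span ℂ {Z | Z ∈ trS W ∧ ∀ i j, Z i j ∈ K} := by
    intro Y hY
    induction hY using Submodule.span_induction with
    | mem Y hY =>
      refine Submodule.subset_span ⟨?_, fun i j => hY.2 j i⟩
      rw [mem_trS, Matrix.transpose_transpose]
      exact hY.1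
    | zero =>
      rw [Matrix.transpose_zero]
      exact Submodule.zero_mem _
    | add x y _ _ hx hy =>
      rw [Matrix.transpose_add]
      exact Submodule.add_mem _ hx hy
    | smul c x _ hx =>
      rw [Matrix.transpose_smul]
      exact Submodule.smul_mem _ _ hx
  intro Z hZ
  have h1 := key _ (hW (mem_trS.1 hZ))
  rwa [Matrix.transpose_transpose] at h1

/-- The same subspace on the de Rham side. -/
def drS (P : Matrix (Fin (2 * g)) (Fin (2 * g)) ℂ)
    (V : Submodule ℂ (Matrix (Fin (2 * g)) (Fin (2 * g)) ℂ)) :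
    Submodule ℂ (Matrix (Fin (2 * g)) (Fin (2 * g)) ℂ) where
  carrier := {c | P * c * P⁻¹ ∈ V}
  zero_mem' := by
    rw [Set.mem_setOf_eq, Matrix.mul_zero, Matrix.zero_mul]
    exact V.zero_mem
  add_mem' := fun {x y} hx hy => by
    rw [Set.mem_setOf_eq, mul_add, add_mul]
    exact V.add_mem hx hy
  smul_mem' := fun c x hx => by
    rw [Set.mem_setOf_eq, mul_smul_comm, smul_mul_assoc]
    exact V.smul_mem _ hx

theorem algDR_mat {Y : Matrix (Fin (2 * g)) (Fin (2 * g)) ℂ} (h : AlgDR A Y) :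
    ∀ i j, ((PM A)⁻¹ * Yᵀ * PM A) i j ∈ QA := by
  obtain ⟨c, hc, h1⟩ := h
  have h2 : Yᵀ * PM A = PM A * Matrix.of fun a b => c ((eqv g).symm b) ((eqv g).symm a) := by
    ext j b
    obtain ⟨k, rfl⟩ := (eqv g).surjective b
    rw [Matrix.mul_apply, Matrix.mul_apply]
    simp only [Matrix.transpose_apply, PM_apply, Matrix.of_apply, Equiv.symm_apply_apply]
    rw [h1 k j, ← (eqv g).sum_comp]
    refine Finset.sum_congr rfl fun l _ => ?_
    rw [PM_apply, Equiv.symm_apply_apply, mul_comm]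
  intro i j
  rw [Matrix.mul_assoc, h2, ← Matrix.mul_assoc, Matrix.nonsing_inv_mul _ PM_unit, Matrix.one_mul,
    Matrix.of_apply]
  exact mem_QA.2 (hc _ _)

theorem span_dr {W : Submodule ℂ (Matrix (Fin (2 * g)) (Fin (2 * g)) ℂ)}
    (hW : W ≤ Submodule.span ℂ {Y | Y ∈ W ∧ AlgDR A Y}) :
    drS (PM A) (trS W) ≤ Submodule.span ℂ {c | c ∈ drS (PM A) (trS W) ∧ ∀ i j, c i j ∈ QA} := by
  have hP1 := Matrix.mul_nonsing_inv (PM A) PM_unit
  have hP2 := Matrix.nonsing_inv_mul (PM A) PM_unit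
  have hback : ∀ Y : Matrix (Fin (2 * g)) (Fin (2 * g)) ℂ,
      PM A * ((PM A)⁻¹ * Yᵀ * PM A) * (PM A)⁻¹ = Yᵀ := by
    intro Y
    calc PM A * ((PM A)⁻¹ * Yᵀ * PM A) * (PM A)⁻¹ =
        (PM A * (PM A)⁻¹) * Yᵀ * (PM A * (PM A)⁻¹) := by simp only [Matrix.mul_assoc]
      _ = Yᵀ := by rw [hP1, Matrix.one_mul, Matrix.mul_one]
  have key : ∀ Y ∈ Submodule.span ℂ {Y | Y ∈ W ∧ AlgDR A Y}, (PM A)⁻¹ * Yᵀ * PM A ∈
      Submodule.span ℂ {c | c ∈ drS (PM A) (trS W) ∧ ∀ i j, c i j ∈ QA} := by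
    intro Y hY
    induction hY using Submodule.span_induction with
    | mem Y hY =>
      refine Submodule.subset_span ⟨?_, algDR_mat hY.2⟩
      change PM A * ((PM A)⁻¹ * Yᵀ * PM A) * (PM A)⁻¹ ∈ trS W
      rw [hback, mem_trS, Matrix.transpose_transpose]
      exact hY.1
    | zero =>
      rw [Matrix.transpose_zero, Matrix.mul_zero, Matrix.zero_mul]
      exact Submodule.zero_mem _
    | add x y _ _ hx hy =>
      rw [Matrix.transpose_add, mul_add, add_mul]
      exact Submodule.add_mem _ hx hy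
    | smul c x _ hx =>
      rw [Matrix.transpose_smul, mul_smul_comm, smul_mul_assoc]
      exact Submodule.smul_mem _ _ hx
  intro c hc
  have h1 : PM A * c * (PM A)⁻¹ ∈ trS W := hc
  have h2 := key _ (hW (mem_trS.1 h1))
  rw [Matrix.transpose_transpose] at h2
  have h3 : (PM A)⁻¹ * (PM A * c * (PM A)⁻¹) * PM A = c := by
    calc (PM A)⁻¹ * (PM A * c * (PM A)⁻¹) * PM A =
        ((PM A)⁻¹ * PM A) * c * ((PM A)⁻¹ * PM A) := by simp only [Matrix.mul_assoc]
      _ = c := by rw [hP2, Matrix.one_mul, Matrix.mul_one]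
  rwa [h3] at h2

/-- **The converse.** If the groups over `F` with a torsor over the algebraic numbers which contains the
periods of `A` contain the exponentials of the derived algebra, then all subobjects are stable. -/
theorem adSub_of (hF : ∀ x ∈ F, IsAlgebraic ℚ x)
    (hS : ∀ G : Subgroup (GL (Fin (2 * g)) ℂ), AlgSub F G →
      ∀ T : Matrix (Fin (2 * g)) (Fin (2 * g)) ℂ, (∀ i j, IsAlgebraic ℚ (T i j)) →
      (∃ x ∈ G, (x : Matrix (Fin (2 * g)) (Fin (2 * g)) ℂ) = PM A * T) →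
      ∀ X ∈ der A.NA, ∀ t : ℂ, ∃ x ∈ G, (x : Matrix (Fin (2 * g)) (Fin (2 * g)) ℂ) =
        NormedSpace.exp (t • (toC X)ᵀ)) : AdSub A F := by
  intro W hW X hX Y hY
  obtain ⟨Z, hZ, e, he, rfl, hZc⟩ := full_NA.dec hX
  have hcen : toC Z * Y - Y * toC Z = 0 := by
    have h1 := hW.le hY
    clear hY
    induction h1 using Submodule.span_induction with
    | mem x hx =>
      obtain ⟨X, hX, rfl⟩ := hx
      rw [← toC_mul, ← toC_mul, hZc X hX, sub_self]
    | zero => rw [mul_zero, zero_mul, sub_zero]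
    | add x y _ _ hx hy => rw [mul_add, add_mul, add_sub_add_comm, hx, hy, add_zero]
    | smul a x _ hx => rw [mul_smul_comm, smul_mul_assoc, ← smul_sub, hx, smul_zero]
  have hb : trS W ≤ Submodule.span ℂ {Z | Z ∈ trS W ∧ ∀ i j, Z i j ∈ F} := span_tr hW.betti
  obtain ⟨T, hT, x, hx, hxT⟩ := exists_T (V := trS W) (VD := drS (PM A) (trS W)) (P := PM A)
    PM_unit (fun c => Iff.rfl)
    (hb.trans (Submodule.span_mono fun Z hZ => ⟨hZ.1, fun i j => mem_QA.2 (hF _ (hZ.2 i j))⟩))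
    (span_dr hW.deRham)
  have h1 := deriv_stab (hS (stabG (trS W)) (stabG_alg hb) T hT ⟨x, hx, hxT⟩ e he)
    (Z := Yᵀ) (by rw [mem_trS, Matrix.transpose_transpose]; exact hY)
  rw [mem_trS, Matrix.transpose_sub, Matrix.transpose_mul, Matrix.transpose_mul,
    Matrix.transpose_transpose, Matrix.transpose_transpose] at h1
  have h2 : toC (Z + e) * Y - Y * toC (Z + e) = -(Y * toC e - toC e * Y) := by
    rw [toC_add, add_mul, mul_add, add_sub_add_comm, hcen, zero_add, neg_sub]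
  rw [h2]
  exact W.neg_mem h1

end Pool.Agent.H67OM
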